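import Pool.Agent.Lib.H69.Gauss.Wick

/-!
# Moments of linear forms and of the norm
-/

open MeasureTheory ProbabilityTheory Finset MvPolynomial

namespace Pool.Agent.H69Gauss

variable {ι : Type*} [Fintype ι]

theorem LG_lin_mul [DecidableEq ι] (c : ι → ℝ) (q : MvPolynomial ι ℝ) :
    LG (lin c * q) = ∑ a, c a * LG (pderiv a q) := by
  unfold lin
  rw [Finset.sum_mul, LG_sum]
  refine Finset.sum_congr rfl fun a _ => ?_
  rw [mul_assoc, LG_C_mul, LG_X_mul]

theorem LG_lin_pow [DecidableEq ι] (c : ι → ℝ) : ∀ n : ℕ,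
    LG (lin c ^ (2 * n)) = dff n * (∑ a, c a ^ 2) ^ n := by
  intro n
  induction n with
  | zero => simp [LG_one, dff]
  | succ n ih =>
    have h0 : lin c ^ (2 * (n + 1)) = lin c * lin c ^ (2 * n + 1) := by ring
    rw [h0, LG_lin_mul]
    have h1 : ∀ a, LG (pderiv a (lin c ^ (2 * n + 1))) =
        c a * ((2 * n + 1) * LG (lin c ^ (2 * n))) := by
      intro a
      have h2 : pderiv a (lin c ^ (2 * n + 1)) =
          C (c a * (2 * (n : ℝ) + 1)) * lin c ^ (2 * n) := by
        rw [Derivation.leibniz_pow, pderiv_lin]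
        simp only [Nat.add_sub_cancel, smul_eq_mul, nsmul_eq_mul]
        simp only [C_mul, C_add, C_1]
        have : (C ((n : ℝ)) : MvPolynomial ι ℝ) = (n : MvPolynomial ι ℝ) := by simp
        rw [this]
        have h3 : (C (2 : ℝ) : MvPolynomial ι ℝ) = 2 := by
          exact map_ofNat C 2
        rw [h3]
        push_cast
        ring
      rw [h2, LG_C_mul]
      ring
    rw [Finset.sum_congr rfl (fun a _ => by rw [h1])]
    rw [ih]
    simp only [dff]
    have h4 : ∀ a, c a * (c a * ((2 * n + 1) * (dff n * (∑ a, c a ^ 2) ^ n))) =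
        c a ^ 2 * ((2 * n + 1) * (dff n * (∑ a, c a ^ 2) ^ n)) := by
      intro a; ring
    rw [Finset.sum_congr rfl (fun a _ => h4 a), ← Finset.sum_mul]
    ring

/-- The polynomial `∑ X i ^ 2`. -/
noncomputable def nsq (ι : Type*) [Fintype ι] : MvPolynomial ι ℝ := ∑ i, X i ^ 2

theorem pderiv_nsq [DecidableEq ι] (i : ι) : pderiv i (nsq ι) = C 2 * X i := by
  unfold nsq
  rw [map_sum, Finset.sum_eq_single i]
  · rw [Derivation.leibniz_pow, pderiv_X_self]
    have h3 : (C (2 : ℝ) : MvPolynomial ι ℝ) = 2 := by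
      exact map_ofNat C 2
    rw [h3]
    simp only [nsmul_eq_mul, smul_eq_mul]
    push_cast
    ring
  · intro b _ hb
    rw [Derivation.leibniz_pow, pderiv_X_of_ne hb]
    simp
  · simp

theorem LG_nsq_pow_succ [DecidableEq ι] (k : ℕ) :
    LG (nsq ι ^ (k + 1)) = (Fintype.card ι + 2 * k) * LG (nsq ι ^ k) := by
  have h0 : nsq ι ^ (k + 1) = ∑ i, X i * (X i * nsq ι ^ k) := by
    rw [pow_succ]
    conv_lhs => rw [nsq]
    rw [Finset.mul_sum]
    refine Finset.sum_congr rfl fun i _ => ?_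
    rw [nsq]
    ring
  rw [h0, LG_sum]
  have h1 : ∀ i : ι, LG (X i * (X i * nsq ι ^ k)) =
      LG (nsq ι ^ k) + 2 * k * LG (X i ^ 2 * nsq ι ^ (k - 1)) := by
    intro i
    rw [LG_X_mul, pderiv_mul, pderiv_X_self, one_mul, LG_add]
    congr 1
    rw [Derivation.leibniz_pow, pderiv_nsq]
    rw [← LG_C_mul]
    congr 1
    have h3 : (C (2 : ℝ) : MvPolynomial ι ℝ) = 2 := by
      exact map_ofNat C 2
    have h4 : (C ((k : ℝ)) : MvPolynomial ι ℝ) = (k : MvPolynomial ι ℝ) := by simp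
    simp only [nsmul_eq_mul, smul_eq_mul, C_mul, h3, h4]
    ring
  have h6 : (∑ i : ι, LG (X i ^ 2 * nsq ι ^ (k - 1))) = LG ((∑ i : ι, X i ^ 2) * nsq ι ^ (k - 1)) := by
    rw [Finset.sum_mul, LG_sum]
  rw [Finset.sum_congr rfl (fun i _ => h1 i), Finset.sum_add_distrib, ← Finset.mul_sum, h6]
  simp only [Finset.sum_const, Finset.card_univ, nsmul_eq_mul]
  rcases k with _ | k
  · simp
  · have h5 : (∑ i : ι, X i ^ 2) * nsq ι ^ (k + 1 - 1) = nsq ι ^ (k + 1) := by
      rw [Nat.add_sub_cancel, pow_succ, mul_comm]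
      rfl
    rw [h5]
    ring

theorem LG_nsq_pow [DecidableEq ι] (k : ℕ) :
    LG (nsq ι ^ k) = ∏ j ∈ Finset.range k, ((Fintype.card ι : ℝ) + 2 * j) := by
  induction k with
  | zero => simp [LG_one]
  | succ k ih => rw [LG_nsq_pow_succ, ih, Finset.prod_range_succ, mul_comm]

/-- The moment of order `2 n` of the norm in dimension `2 n`. -/
theorem prod_card (n : ℕ) (hn : 1 ≤ n) :
    2 * ∏ j ∈ Finset.range n, ((2 * n : ℝ) + 2 * j) = 4 ^ n * dff n := by
  induction n, hn using Nat.le_induction with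
  | base => simp [dff]; norm_num
  | succ n hn ih =>
    have hn' : (0 : ℝ) < n := by exact_mod_cast hn
    have e1 : (2 * n : ℝ) * ∏ j ∈ Finset.range (n + 1), ((2 * ((n + 1 : ℕ) : ℝ)) + 2 * j) =
        ∏ j ∈ Finset.range (n + 2), ((2 * n : ℝ) + 2 * j) := by
      rw [Finset.prod_range_succ' (fun j : ℕ => ((2 * n : ℝ) + 2 * (j : ℝ))) (n + 1)]
      simp only [Nat.cast_zero, mul_zero, add_zero]
      rw [mul_comm]
      congr 1
      refine Finset.prod_congr rfl fun j _ => ?_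
      push_cast
      ring
    have e2 : ∏ j ∈ Finset.range (n + 2), ((2 * n : ℝ) + 2 * j) =
        (∏ j ∈ Finset.range n, ((2 * n : ℝ) + 2 * j)) * (4 * n) * (4 * n + 2) := by
      rw [Finset.prod_range_succ, Finset.prod_range_succ]
      push_cast
      ring
    have e3 : (2 * n : ℝ) * (2 * ∏ j ∈ Finset.range (n + 1), ((2 * ((n + 1 : ℕ) : ℝ)) + 2 * j)) =
        (2 * n) * (4 ^ (n + 1) * dff (n + 1)) := by
      calc _ = 2 * ((2 * n : ℝ) * ∏ j ∈ Finset.range (n + 1),
            ((2 * ((n + 1 : ℕ) : ℝ)) + 2 * j)) := by ring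
        _ = (2 * ∏ j ∈ Finset.range n, ((2 * n : ℝ) + 2 * j)) * (4 * n) * (4 * n + 2) := by
          rw [e1, e2]; ring
        _ = _ := by
          rw [ih]
          simp only [dff]
          ring
    have h2n : (2 * n : ℝ) ≠ 0 := by positivity
    exact mul_left_cancel₀ h2n e3

/-! ### Integral forms -/

theorem LG_real (p : MvPolynomial ι ℝ) : LG p = ∫ x, eval x p ∂(gam ι) := by
  unfold LG
  congr 1

theorem integrable_eval (p : MvPolynomial ι ℝ) : Integrable (fun x => eval x p) (gam ι) :=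
  integrable_evr p

theorem eval_lin (x c : ι → ℝ) : eval x (lin c) = ∑ a, c a * x a := by
  unfold lin
  simp

theorem eval_nsq (x : ι → ℝ) : eval x (nsq ι) = ∑ i, x i ^ 2 := by
  unfold nsq
  simp

theorem int_lin_pow (c : ι → ℝ) (n : ℕ) :
    ∫ x, (∑ a, c a * x a) ^ (2 * n) ∂(gam ι) = dff n * (∑ a, c a ^ 2) ^ n := by
  classical
  rw [← LG_lin_pow, LG_real]
  congr 1
  funext x
  rw [map_pow, eval_lin]

theorem integrable_lin_pow (c : ι → ℝ) (k : ℕ) :
    Integrable (fun x : ι → ℝ => (∑ a, c a * x a) ^ k) (gam ι) := by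
  have h := integrable_eval (lin c ^ k)
  refine h.congr (Filter.Eventually.of_forall fun x => ?_)
  simp only [map_pow, eval_lin]

theorem integrable_nsq_pow (k : ℕ) :
    Integrable (fun x : ι → ℝ => (∑ i, x i ^ 2) ^ k) (gam ι) := by
  have h := integrable_eval (nsq ι ^ k)
  refine h.congr (Filter.Eventually.of_forall fun x => ?_)
  simp only [map_pow, eval_nsq]

theorem int_nsq_pow (n : ℕ) (hn : 1 ≤ n) (hc : Fintype.card ι = 2 * n) :
    ∫ x, (∑ i : ι, x i ^ 2) ^ n ∂(gam ι) = 4 ^ n / 2 * dff n := by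
  classical
  have h : LG (nsq ι ^ n) = ∫ x, (∑ i : ι, x i ^ 2) ^ n ∂(gam ι) := by
    rw [LG_real]
    congr 1
    funext x
    rw [map_pow, eval_nsq]
  rw [← h, LG_nsq_pow, hc]
  have := prod_card n hn
  push_cast
  linarith

end Pool.Agent.H69Gauss
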