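import Pool.Agent.Lib.H69.Gauss.Wick
import Pool.Agent.Lib.H69.Hopf.Alt

/-!
# Gauss–Bonnet integrand as the expectation of a determinant
-/

open MeasureTheory ProbabilityTheory Finset MvPolynomial Equiv
open Pool.Agent.H69Hopf

namespace Pool.Agent.H69Gauss

variable {ι : Type*} [Fintype ι] {𝕜 : Type*} [RCLike 𝕜] {P : Type*} [Fintype P]

theorem fst_succ {n : ℕ} (i : Fin n) :
    (fst i.succ : Fin (2 * (n + 1))) = ((fst i).succ.succ : Fin (2 * n + 1 + 1)) := by
  apply Fin.ext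
  simp [fst]
  omega

theorem snd_succ {n : ℕ} (i : Fin n) :
    (snd i.succ : Fin (2 * (n + 1))) = ((snd i).succ.succ : Fin (2 * n + 1 + 1)) := by
  apply Fin.ext
  simp [snd]
  omega

theorem WW_eq (K : P → P → 𝕜) : ∀ (n : ℕ) (c : (Fin (2 * n) → P) → 𝕜),
    WW K n c = ∑ w : Fin (2 * n) → P, c w * ∏ i : Fin n, K (w (fst i)) (w (snd i)) := by
  intro n
  induction n with
  | zero =>
    intro c
    have : Unique (Fin (2 * 0) → P) := inferInstanceAs (Unique (Fin 0 → P))
    rw [Fintype.sum_unique]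
    simp only [WW, Finset.univ_eq_empty, Finset.prod_empty, mul_one]
    congr 1
    exact Subsingleton.elim _ _
  | succ n ih =>
    intro c
    simp only [WW, ih]
    have h1 : ∑ w : Fin (2 * (n + 1)) → P, c w * ∏ i : Fin (n + 1), K (w (fst i)) (w (snd i)) =
        ∑ w : Fin (2 * n + 1 + 1) → P, (fun w : Fin (2 * n + 1 + 1) → P => c w *
          ∏ i : Fin (n + 1), K (w (fst i : Fin (2 * (n + 1)))) (w (snd i : Fin (2 * (n + 1))))) w :=
      rfl
    rw [h1, ← Equiv.sum_comp (Fin.consEquiv (fun _ : Fin (2 * n + 1 + 1) => P)),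
      Fintype.sum_prod_type]
    refine Finset.sum_congr rfl fun p _ => ?_
    rw [← Equiv.sum_comp (Fin.consEquiv (fun _ : Fin (2 * n + 1) => P)),
      Fintype.sum_prod_type]
    refine Finset.sum_congr rfl fun q _ => ?_
    rw [Finset.mul_sum]
    refine Finset.sum_congr rfl fun w _ => ?_
    have h2 : (Fin.consEquiv (fun _ : Fin (2 * n + 1 + 1) => P))
        (p, (Fin.consEquiv (fun _ : Fin (2 * n + 1) => P)) (q, w)) =
        (Fin.cons p (Fin.cons q w) : Fin (2 * n + 1 + 1) → P) := rfl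
    rw [h2]
    rw [Fin.prod_univ_succ]
    have h3 : (Fin.cons p (Fin.cons q w) : Fin (2 * n + 1 + 1) → P)
        (fst 0 : Fin (2 * (n + 1))) = p := rfl
    have h4 : (Fin.cons p (Fin.cons q w) : Fin (2 * n + 1 + 1) → P)
        (snd 0 : Fin (2 * (n + 1))) = q := rfl
    rw [h3, h4]
    have h5 : ∀ i : Fin n, K ((Fin.cons p (Fin.cons q w) : Fin (2 * n + 1 + 1) → P)
        (fst i.succ : Fin (2 * (n + 1)))) ((Fin.cons p (Fin.cons q w) : Fin (2 * n + 1 + 1) → P)
        (snd i.succ : Fin (2 * (n + 1)))) = K (w (fst i)) (w (snd i)) := by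
      intro i
      rw [fst_succ, snd_succ, Fin.cons_succ, Fin.cons_succ, Fin.cons_succ, Fin.cons_succ]
    simp only [h5]
    ring

/-- Sign of a pair of permutations, in `𝕜`. -/
noncomputable def sg (𝕜 : Type*) [RCLike 𝕜] {N : ℕ} (σ τ : Perm (Fin N)) : 𝕜 :=
  ((Perm.sign σ : ℤ) : 𝕜) * ((Perm.sign τ : ℤ) : 𝕜)

open Classical in
/-- The coefficient array of `N! * det`. -/
noncomputable def cdet (𝕜 : Type*) [RCLike 𝕜] (N : ℕ) (w : Fin N → Fin N × Fin N) : 𝕜 :=
  ∑ σ : Perm (Fin N), ∑ τ : Perm (Fin N), if w = (fun j => (σ j, τ j)) then sg 𝕜 σ τ else 0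

theorem sum_cdet {A : Type*} [CommRing A] [Algebra 𝕜 A] (N : ℕ)
    (f : (Fin N → Fin N × Fin N) → A) :
    ∑ w, algebraMap 𝕜 A (cdet 𝕜 N w) * f w =
      ∑ σ : Perm (Fin N), ∑ τ : Perm (Fin N), algebraMap 𝕜 A (sg 𝕜 σ τ) * f (fun j => (σ j, τ j)) := by
  classical
  unfold cdet
  simp only [map_sum, Finset.sum_mul]
  rw [Finset.sum_comm]
  refine Finset.sum_congr rfl fun σ _ => ?_
  rw [Finset.sum_comm]
  refine Finset.sum_congr rfl fun τ _ => ?_
  rw [Finset.sum_eq_single (fun j => (σ j, τ j))]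
  · simp
  · intro w _ hw
    rw [if_neg hw, map_zero, zero_mul]
  · simp

theorem sg_mul_right {N : ℕ} (σ τ ρ : Perm (Fin N)) : sg 𝕜 (σ * ρ) (τ * ρ) = sg 𝕜 σ τ := by
  unfold sg
  rw [Perm.sign_mul, Perm.sign_mul]
  rcases Int.units_eq_one_or (Perm.sign ρ) with h | h <;> rw [h] <;> simp

theorem inv_cdet (N : ℕ) : Inv N (cdet 𝕜 N) := by
  classical
  intro ρ w
  unfold cdet
  rw [← Equiv.sum_comp (Equiv.mulRight ρ)]
  refine Finset.sum_congr rfl fun σ _ => ?_
  rw [← Equiv.sum_comp (Equiv.mulRight ρ)]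
  refine Finset.sum_congr rfl fun τ _ => ?_
  simp only [Equiv.coe_mulRight, sg_mul_right]
  have h : (w ∘ ρ = fun j => ((σ * ρ) j, (τ * ρ) j)) ↔ (w = fun j => (σ j, τ j)) := by
    constructor
    · intro h
      funext j
      have := congrFun h (ρ⁻¹ j)
      simpa using this
    · intro h
      rw [h]
      rfl
  simp only [h]

theorem sum_det {A : Type*} [CommRing A] [Algebra 𝕜 A] {N : ℕ} (Y : Matrix (Fin N) (Fin N) A) :
    ∑ σ : Perm (Fin N), ∑ τ : Perm (Fin N), algebraMap 𝕜 A (sg 𝕜 σ τ) * ∏ j, Y (σ j) (τ j) =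
      (N.factorial : A) * Y.det := by
  have h1 : ∀ τ : Perm (Fin N), ∑ σ : Perm (Fin N), algebraMap 𝕜 A (sg 𝕜 σ τ) *
      ∏ j, Y (σ j) (τ j) = Y.det := by
    intro τ
    have h2 := Matrix.det_permute' τ Y
    rw [Matrix.det_apply] at h2
    simp only [Matrix.submatrix_apply, id] at h2
    have h3 : ∀ σ : Perm (Fin N), algebraMap 𝕜 A (sg 𝕜 σ τ) * ∏ j, Y (σ j) (τ j) =
        ((Perm.sign τ : ℤ) : A) * (Perm.sign σ • ∏ j, Y (σ j) (τ j)) := by
      intro σ
      unfold sg
      rw [map_mul, map_intCast, map_intCast, Units.smul_def, zsmul_eq_mul]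
      ring
    rw [Finset.sum_congr rfl (fun σ _ => h3 σ), ← Finset.mul_sum, h2, ← mul_assoc]
    rcases Int.units_eq_one_or (Perm.sign τ) with h | h <;> rw [h] <;> simp
  rw [Finset.sum_comm, Finset.sum_congr rfl (fun τ _ => h1 τ)]
  simp [Finset.card_univ, Fintype.card_perm]

/-- The random matrix as a matrix of polynomials. -/
noncomputable def ymat {N : ℕ} (M : ι → Matrix (Fin N) (Fin N) 𝕜) :
    Matrix (Fin N) (Fin N) (MvPolynomial ι 𝕜) :=
  Matrix.of fun i j => lin fun a => M a i j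

theorem FF_cdet {N : ℕ} (M : ι → Matrix (Fin N) (Fin N) 𝕜) :
    FF (fun p : Fin N × Fin N => lin fun a => M a p.1 p.2) N (cdet 𝕜 N) =
      (N.factorial : MvPolynomial ι 𝕜) * (ymat M).det := by
  rw [← sum_det (𝕜 := 𝕜) (ymat M)]
  unfold FF
  have h := sum_cdet (𝕜 := 𝕜) (A := MvPolynomial ι 𝕜) N
    (fun w => ∏ j, lin fun a => M a (w j).1 (w j).2)
  rw [MvPolynomial.algebraMap_eq] at h
  rw [h, MvPolynomial.algebraMap_eq]
  rfl

theorem WW_cdet {n : ℕ} (K : Fin (2 * n) × Fin (2 * n) → Fin (2 * n) × Fin (2 * n) → 𝕜) :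
    WW K n (cdet 𝕜 (2 * n)) = ∑ σ : Perm (Fin (2 * n)), ∑ τ : Perm (Fin (2 * n)),
      sg 𝕜 σ τ * ∏ i : Fin n, K (σ (fst i), τ (fst i)) (σ (snd i), τ (snd i)) := by
  rw [WW_eq]
  have h := sum_cdet (𝕜 := 𝕜) (A := 𝕜) (2 * n) (fun w => ∏ i : Fin n, K (w (fst i)) (w (snd i)))
  simpa using h

/-- Expanding antisymmetrised factors. -/
theorem antisym_expand {n : ℕ} (T : Fin n → Fin (2 * n) → Fin (2 * n) → 𝕜) :
    ∑ τ : Perm (Fin (2 * n)), ((Perm.sign τ : ℤ) : 𝕜) *
      ∏ i : Fin n, (T i (τ (fst i)) (τ (snd i)) - T i (τ (snd i)) (τ (fst i))) =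
    2 ^ n * ∑ τ : Perm (Fin (2 * n)), ((Perm.sign τ : ℤ) : 𝕜) *
      ∏ i : Fin n, T i (τ (fst i)) (τ (snd i)) := by
  classical
  have key : ∀ s : Finset (Fin n), ∑ τ : Perm (Fin (2 * n)), ((Perm.sign τ : ℤ) : 𝕜) *
      ((∏ i ∈ s, (T i (τ (fst i)) (τ (snd i)) - T i (τ (snd i)) (τ (fst i)))) *
        ∏ i ∈ sᶜ, T i (τ (fst i)) (τ (snd i))) =
      2 ^ s.card * ∑ τ : Perm (Fin (2 * n)), ((Perm.sign τ : ℤ) : 𝕜) *
        ∏ i : Fin n, T i (τ (fst i)) (τ (snd i)) := by
    intro s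
    induction s using Finset.induction_on with
    | empty => simp
    | insert a s ha ih =>
      have hsc : sᶜ = insert a (insert a s)ᶜ := by
        ext x
        simp only [Finset.mem_compl, Finset.mem_insert]
        by_cases hx : x = a
        · simp [hx, ha]
        · simp [hx]
      have hna : a ∉ (insert a s)ᶜ := by simp
      set rest : Perm (Fin (2 * n)) → 𝕜 := fun τ =>
        (∏ i ∈ s, (T i (τ (fst i)) (τ (snd i)) - T i (τ (snd i)) (τ (fst i)))) *
          ∏ i ∈ (insert a s)ᶜ, T i (τ (fst i)) (τ (snd i)) with hrest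
      have h1 : ∑ τ : Perm (Fin (2 * n)), ((Perm.sign τ : ℤ) : 𝕜) *
          (T a (τ (fst a)) (τ (snd a)) * rest τ) = 2 ^ s.card *
          ∑ τ : Perm (Fin (2 * n)), ((Perm.sign τ : ℤ) : 𝕜) *
            ∏ i : Fin n, T i (τ (fst i)) (τ (snd i)) := by
        rw [← ih]
        refine Finset.sum_congr rfl fun τ _ => ?_
        rw [hsc, Finset.prod_insert hna, hrest]
        ring
      have hrs : ∀ τ : Perm (Fin (2 * n)), rest (τ * swap (fst a) (snd a)) = rest τ := by
        intro τ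
        rw [hrest]
        simp only
        congr 1
        · refine Finset.prod_congr rfl fun i hi => ?_
          have hia : i ≠ a := fun h => ha (h ▸ hi)
          have e1 : (τ * swap (fst a) (snd a)) (fst i) = τ (fst i) := by
            rw [Perm.mul_apply, swap_apply_of_ne_of_ne]
            · exact fun h => hia (fst_inj.1 h)
            · exact fst_ne_snd _ _
          have e2 : (τ * swap (fst a) (snd a)) (snd i) = τ (snd i) := by
            rw [Perm.mul_apply, swap_apply_of_ne_of_ne]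
            · exact fun h => fst_ne_snd _ _ h.symm
            · exact fun h => hia (snd_inj.1 h)
          rw [e1, e2]
        · refine Finset.prod_congr rfl fun i hi => ?_
          have hia : i ≠ a := fun h => hna (h ▸ hi)
          have e1 : (τ * swap (fst a) (snd a)) (fst i) = τ (fst i) := by
            rw [Perm.mul_apply, swap_apply_of_ne_of_ne]
            · exact fun h => hia (fst_inj.1 h)
            · exact fst_ne_snd _ _
          have e2 : (τ * swap (fst a) (snd a)) (snd i) = τ (snd i) := by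
            rw [Perm.mul_apply, swap_apply_of_ne_of_ne]
            · exact fun h => fst_ne_snd _ _ h.symm
            · exact fun h => hia (snd_inj.1 h)
          rw [e1, e2]
      have h2 : ∑ τ : Perm (Fin (2 * n)), ((Perm.sign τ : ℤ) : 𝕜) *
          (T a (τ (snd a)) (τ (fst a)) * rest τ) = - ∑ τ : Perm (Fin (2 * n)),
            ((Perm.sign τ : ℤ) : 𝕜) * (T a (τ (fst a)) (τ (snd a)) * rest τ) := by
        rw [← Equiv.sum_comp (Equiv.mulRight (swap (fst a) (snd a))), ← Finset.sum_neg_distrib]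
        refine Finset.sum_congr rfl fun τ _ => ?_
        simp only [Equiv.coe_mulRight]
        rw [hrs, Perm.sign_mul, Perm.sign_swap (fst_ne_snd a a)]
        have e1 : (τ * swap (fst a) (snd a)) (fst a) = τ (snd a) := by
          rw [Perm.mul_apply, swap_apply_left]
        have e2 : (τ * swap (fst a) (snd a)) (snd a) = τ (fst a) := by
          rw [Perm.mul_apply, swap_apply_right]
        rw [e1, e2]
        push_cast
        ring
      rw [Finset.card_insert_of_notMem ha, pow_succ]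
      calc _ = ∑ τ : Perm (Fin (2 * n)), (((Perm.sign τ : ℤ) : 𝕜) *
            (T a (τ (fst a)) (τ (snd a)) * rest τ) - ((Perm.sign τ : ℤ) : 𝕜) *
            (T a (τ (snd a)) (τ (fst a)) * rest τ)) := by
            refine Finset.sum_congr rfl fun τ _ => ?_
            rw [Finset.prod_insert ha, hrest]
            ring
        _ = _ := by
            rw [Finset.sum_sub_distrib, h2, h1]
            ring
  have h := key Finset.univ
  simpa using h

theorem factorial_dff (n : ℕ) : ((2 * n).factorial : ℝ) = 2 ^ n * n.factorial * dff n := by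
  induction n with
  | zero => simp [dff]
  | succ n ih =>
    have h : (2 * (n + 1)).factorial = (2 * n + 2) * ((2 * n + 1) * (2 * n).factorial) := by
      rw [show 2 * (n + 1) = 2 * n + 1 + 1 by ring, Nat.factorial_succ, Nat.factorial_succ]
    rw [h, Nat.factorial_succ]
    push_cast
    rw [ih]
    simp only [dff]
    ring

/-- **Gauss–Bonnet integrand as the Gaussian expectation of a determinant.** -/
theorem gb_eq_LG [DecidableEq ι] (n : ℕ) (M : ι → Matrix (Fin (2 * n)) (Fin (2 * n)) 𝕜)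
    (R : Arr (2 * n))
    (hR : ∀ i j k l, ((R i j k l : ℝ) : 𝕜) = ∑ a, (M a i k * M a j l - M a i l * M a j k)) :
    ((gaussBonnet n R : ℝ) : 𝕜) = 4 ^ n * (n.factorial : 𝕜) * LG (ymat M).det := by
  set K : Fin (2 * n) × Fin (2 * n) → Fin (2 * n) × Fin (2 * n) → 𝕜 :=
    fun p q => ∑ a, M a p.1 p.2 * M a q.1 q.2 with hK
  have h1 : ((gaussBonnet n R : ℝ) : 𝕜) = 2 ^ n * WW K n (cdet 𝕜 (2 * n)) := by
    rw [WW_cdet]
    unfold gaussBonnet
    push_cast
    rw [Finset.mul_sum]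
    refine Finset.sum_congr rfl fun σ _ => ?_
    have h2 := antisym_expand (𝕜 := 𝕜) (fun (i : Fin n) (k l : Fin (2 * n)) =>
      K (σ (fst i), k) (σ (snd i), l))
    have h3 : ∀ τ : Perm (Fin (2 * n)), ((Perm.sign σ : ℤ) : 𝕜) * ((Perm.sign τ : ℤ) : 𝕜) *
        ∏ i : Fin n, ((R (σ (fst i)) (σ (snd i)) (τ (fst i)) (τ (snd i)) : ℝ) : 𝕜) =
        ((Perm.sign σ : ℤ) : 𝕜) * (((Perm.sign τ : ℤ) : 𝕜) *
          ∏ i : Fin n, (K (σ (fst i), τ (fst i)) (σ (snd i), τ (snd i)) -
            K (σ (fst i), τ (snd i)) (σ (snd i), τ (fst i)))) := by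
      intro τ
      rw [mul_assoc]
      congr 2
      refine Finset.prod_congr rfl fun i _ => ?_
      rw [hR, hK, ← Finset.sum_sub_distrib]
    rw [Finset.sum_congr rfl (fun τ _ => h3 τ), ← Finset.mul_sum, h2, Finset.mul_sum,
      Finset.mul_sum, Finset.mul_sum]
    refine Finset.sum_congr rfl fun τ _ => ?_
    unfold sg
    ring
  have h4 := LG_FF (fun a (p : Fin (2 * n) × Fin (2 * n)) => M a p.1 p.2) n (cdet 𝕜 (2 * n))
    (inv_cdet _)
  rw [FF_cdet] at h4
  have h5 : LG (((2 * n).factorial : MvPolynomial ι 𝕜) * (ymat M).det) =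
      ((2 * n).factorial : 𝕜) * LG (ymat M).det := by
    rw [← LG_C_mul]
    congr 2
  rw [h5] at h4
  have h6 : ((2 * n).factorial : 𝕜) = 2 ^ n * (n.factorial : 𝕜) * (dff n : 𝕜) := by
    have := congrArg (fun r : ℝ => (r : 𝕜)) (factorial_dff n)
    push_cast at this
    exact this
  have h7 : (dff n : 𝕜) ≠ 0 := by
    exact_mod_cast (dff_pos n).ne'
  have h8 : (dff n : 𝕜) * WW K n (cdet 𝕜 (2 * n)) =
      (dff n : 𝕜) * (2 ^ n * (n.factorial : 𝕜) * LG (ymat M).det) := by
    rw [← h4, h6]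
    ring
  have h9 := mul_left_cancel₀ h7 h8
  rw [h1, h9]
  have h10 : (4 : 𝕜) ^ n = 2 ^ n * 2 ^ n := by
    rw [← mul_pow]
    norm_num
  rw [h10]
  ring

theorem evr_det {N : ℕ} (M : ι → Matrix (Fin N) (Fin N) 𝕜) (x : ι → ℝ) :
    evr x (ymat M).det = (∑ a, (x a : 𝕜) • M a).det := by
  rw [AlgHom.map_det]
  congr 1
  ext i j
  simp only [ymat, AlgHom.mapMatrix_apply, Matrix.map_apply, Matrix.of_apply, evr_lin,
    Matrix.sum_apply, Matrix.smul_apply, smul_eq_mul]
  refine Finset.sum_congr rfl fun a _ => ?_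
  ring

theorem integrable_det {N : ℕ} (M : ι → Matrix (Fin N) (Fin N) 𝕜) :
    Integrable (fun x : ι → ℝ => (∑ a, (x a : 𝕜) • M a).det) (gam ι) := by
  have h := integrable_evr (ymat M).det
  simp only [evr_det] at h
  exact h

theorem LG_det {N : ℕ} (M : ι → Matrix (Fin N) (Fin N) 𝕜) :
    LG (ymat M).det = ∫ x : ι → ℝ, (∑ a, (x a : 𝕜) • M a).det ∂(gam ι) := by
  unfold LG
  simp only [evr_det]

end Pool.Agent.H69Gauss
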