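import Mathlib

/-!
# Gaussian expectation of polynomials

`gam ι` is the standard Gaussian measure on `ι → ℝ`; `LG p` is the expectation of a polynomial.
The main fact is the integration by parts formula `LG (X i * p) = LG (pderiv i p)`.
-/

open MeasureTheory ProbabilityTheory Finset

namespace Pool.Agent.H69Gauss

/-! ### One variable -/

/-- Moments of the standard Gaussian. -/
noncomputable def gm (k : ℕ) : ℝ := ∫ x : ℝ, x ^ k ∂(gaussianReal 0 1)

theorem integrable_pow_gauss (k : ℕ) : Integrable (fun x : ℝ => x ^ k) (gaussianReal 0 1) := by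
  by_cases hk : k = 0
  · subst hk; simp
  have h := (memLp_id_gaussianReal (μ := 0) (v := 1) (k : NNReal)).integrable_norm_rpow
    (by exact_mod_cast hk) (by simp)
  have h2 : Integrable (fun x : ℝ => ‖x ^ k‖) (gaussianReal 0 1) := by
    refine h.congr (Filter.Eventually.of_forall fun x => ?_)
    simp
  exact (integrable_norm_iff (by fun_prop)).1 h2

theorem integrable_pow_mul_exp (k : ℕ) :
    Integrable (fun x : ℝ => x ^ k * Real.exp (-(1/2) * x ^ 2)) := by
  have h := integrable_rpow_mul_exp_neg_mul_sq (b := 1/2) (by norm_num) (s := (k : ℝ))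
    (by have : (0:ℝ) ≤ k := Nat.cast_nonneg k
        linarith)
  refine h.congr (Filter.Eventually.of_forall fun x => ?_)
  simp

theorem pdf_eq (x : ℝ) : gaussianPDFReal 0 1 x = (√(2 * Real.pi))⁻¹ * Real.exp (-(1/2) * x ^ 2) := by
  rw [gaussianPDFReal]
  simp
  left
  ring_nf

theorem gm_eq (k : ℕ) : gm k = (√(2 * Real.pi))⁻¹ * ∫ x : ℝ, x ^ k * Real.exp (-(1/2) * x ^ 2) := by
  unfold gm
  rw [integral_gaussianReal_eq_integral_smul (by norm_num), ← integral_const_mul]
  congr 1
  funext x
  rw [pdf_eq, smul_eq_mul]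
  ring

theorem gm_zero : gm 0 = 1 := by
  unfold gm
  simp

theorem gm_succ (k : ℕ) : gm (k + 1) = k * gm (k - 1) := by
  rw [gm_eq, gm_eq]
  have h := integral_mul_deriv_eq_deriv_mul_of_integrable
    (u := fun x : ℝ => x ^ k) (v := fun x : ℝ => Real.exp (-(1/2) * x ^ 2))
    (u' := fun x : ℝ => k * x ^ (k - 1)) (v' := fun x : ℝ => - x * Real.exp (-(1/2) * x ^ 2))
    (fun x _ => hasDerivAt_pow k x)
    (fun x _ => by
      have h1 : HasDerivAt (fun x : ℝ => -(1/2) * x ^ 2) (- x) x := by
        have h0 := (hasDerivAt_pow 2 x).const_mul (-(1/2 : ℝ))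
        have h3 : -(1/2 : ℝ) * (((2 : ℕ) : ℝ) * x ^ (2 - 1)) = - x := by
          push_cast
          ring
        rw [h3] at h0
        exact h0
      have h2 := h1.exp
      rw [mul_comm] at h2
      exact h2)
    (by
      have h := (integrable_pow_mul_exp (k + 1)).neg
      refine h.congr (Filter.Eventually.of_forall fun x => ?_)
      simp only [Pi.neg_apply, Pi.mul_apply]
      ring)
    (by
      have h := (integrable_pow_mul_exp (k - 1)).const_mul (k : ℝ)
      refine h.congr (Filter.Eventually.of_forall fun x => ?_)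
      simp only [Pi.mul_apply]
      ring)
    (integrable_pow_mul_exp k)
  have e1 : (∫ x : ℝ, x ^ (k + 1) * Real.exp (-(1/2) * x ^ 2)) =
      - ∫ x : ℝ, x ^ k * (- x * Real.exp (-(1/2) * x ^ 2)) := by
    rw [← integral_neg]
    congr 1
    funext x
    ring
  have e2 : (∫ x : ℝ, k * x ^ (k - 1) * Real.exp (-(1/2) * x ^ 2)) =
      k * ∫ x : ℝ, x ^ (k - 1) * Real.exp (-(1/2) * x ^ 2) := by
    rw [← integral_const_mul]
    congr 1
    funext x
    ring
  rw [e1, h, neg_neg, e2]
  ring

/-! ### Several variables -/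

variable {ι : Type*} [Fintype ι] {𝕜 : Type*} [RCLike 𝕜]

/-- Standard Gaussian measure on `ι → ℝ`. -/
noncomputable def gam (ι : Type*) [Fintype ι] : Measure (ι → ℝ) :=
  Measure.pi fun _ => gaussianReal 0 1

instance : IsProbabilityMeasure (gam ι) := by unfold gam; infer_instance

/-- Evaluation of a polynomial at a real point. -/
noncomputable def evr (x : ι → ℝ) : MvPolynomial ι 𝕜 →ₐ[𝕜] 𝕜 :=
  MvPolynomial.aeval fun i => (x i : 𝕜)

theorem evr_monomial (x : ι → ℝ) (s : ι →₀ ℕ) (a : 𝕜) :
    evr x (MvPolynomial.monomial s a) = a * ∏ i, (x i : 𝕜) ^ s i := by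
  unfold evr
  rw [MvPolynomial.aeval_monomial, Finsupp.prod_fintype]
  · rfl
  · intro i; simp

theorem integrable_cast_pow (k : ℕ) :
    Integrable (fun x : ℝ => (x : 𝕜) ^ k) (gaussianReal 0 1) := by
  have h := (integrable_pow_gauss k).ofReal (𝕜 := 𝕜)
  refine h.congr (Filter.Eventually.of_forall fun x => ?_)
  simp

theorem integral_cast_pow (k : ℕ) :
    ∫ x : ℝ, (x : 𝕜) ^ k ∂(gaussianReal 0 1) = (gm k : 𝕜) := by
  unfold gm
  rw [← integral_ofReal]
  congr 1
  funext x
  simp

theorem integrable_evr (p : MvPolynomial ι 𝕜) : Integrable (fun x => evr x p) (gam ι) := by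
  induction p using MvPolynomial.induction_on' with
  | monomial s a =>
    simp only [evr_monomial]
    refine Integrable.const_mul ?_ a
    exact Integrable.fintype_prod (f := fun i (t : ℝ) => (t : 𝕜) ^ s i)
      (fun i => integrable_cast_pow (s i))
  | add p q hp hq =>
    simp only [map_add]
    exact hp.add hq

/-- Gaussian expectation of a polynomial. -/
noncomputable def LG (p : MvPolynomial ι 𝕜) : 𝕜 := ∫ x, evr x p ∂(gam ι)

theorem LG_add (p q : MvPolynomial ι 𝕜) : LG (p + q) = LG p + LG q := by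
  unfold LG
  simp only [map_add]
  exact integral_add (integrable_evr p) (integrable_evr q)

theorem LG_C_mul (a : 𝕜) (p : MvPolynomial ι 𝕜) : LG (MvPolynomial.C a * p) = a * LG p := by
  unfold LG
  rw [← integral_const_mul]
  congr 1
  funext x
  rw [map_mul]
  congr 1
  unfold evr
  simp

theorem LG_zero : LG (0 : MvPolynomial ι 𝕜) = 0 := by
  unfold LG
  simp

theorem LG_sum {α : Type*} (s : Finset α) (f : α → MvPolynomial ι 𝕜) :
    LG (∑ i ∈ s, f i) = ∑ i ∈ s, LG (f i) := by
  classical
  induction s using Finset.induction_on with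
  | empty => simp [LG_zero]
  | insert a s ha ih => rw [Finset.sum_insert ha, Finset.sum_insert ha, LG_add, ih]

theorem LG_monomial (s : ι →₀ ℕ) (a : 𝕜) :
    LG (MvPolynomial.monomial s a) = a * ∏ i, (gm (s i) : 𝕜) := by
  unfold LG gam
  simp only [evr_monomial]
  rw [integral_const_mul, integral_fintype_prod_eq_prod (f := fun i (t : ℝ) => (t : 𝕜) ^ s i)]
  congr 1
  refine Finset.prod_congr rfl fun i _ => ?_
  exact integral_cast_pow (s i)

theorem LG_C (a : 𝕜) : LG (MvPolynomial.C a : MvPolynomial ι 𝕜) = a := by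
  rw [← MvPolynomial.monomial_zero', LG_monomial]
  simp [gm_zero]

theorem LG_one : LG (1 : MvPolynomial ι 𝕜) = 1 := by
  rw [← MvPolynomial.C_1, LG_C]

/-- Gaussian integration by parts. -/
theorem LG_X_mul [DecidableEq ι] (i : ι) (p : MvPolynomial ι 𝕜) :
    LG (MvPolynomial.X i * p) = LG (MvPolynomial.pderiv i p) := by
  induction p using MvPolynomial.induction_on' with
  | add p q hp hq => rw [mul_add, LG_add, hp, hq, map_add, LG_add]
  | monomial s a =>
    rw [MvPolynomial.pderiv_monomial, MvPolynomial.X, MvPolynomial.monomial_mul, one_mul,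
      LG_monomial, LG_monomial]
    set s' : ι →₀ ℕ := s - Finsupp.single i 1 with hs'
    set s'' : ι →₀ ℕ := Finsupp.single i 1 + s with hs''
    rw [← Finset.mul_prod_erase Finset.univ
        (fun j => ((gm (s'' j) : ℝ) : 𝕜)) (Finset.mem_univ i),
      ← Finset.mul_prod_erase Finset.univ (fun j => ((gm (s' j) : ℝ) : 𝕜))
        (Finset.mem_univ i)]
    have h1 : (∏ j ∈ Finset.univ.erase i, ((gm (s'' j) : ℝ) : 𝕜)) =
        ∏ j ∈ Finset.univ.erase i, ((gm (s' j) : ℝ) : 𝕜) := by
      refine Finset.prod_congr rfl fun j hj => ?_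
      have hji : i ≠ j := (Finset.ne_of_mem_erase hj).symm
      simp [hs', hs'', hji]
    rw [h1]
    have h2 : s'' i = s i + 1 := by simp [hs'', add_comm]
    have h3 : s' i = s i - 1 := by simp [hs']
    rw [h2, h3, gm_succ]
    push_cast
    ring

end Pool.Agent.H69Gauss
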