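import Pool.Agent.Lib.H69.Gauss.Spectral
import Pool.Agent.Lib.H69.Gauss.DetWick

/-!
# Lower bounds for the Gauss–Bonnet integrand
-/

open MeasureTheory ProbabilityTheory Finset Matrix
open Pool.Agent.H69Hopf

namespace Pool.Agent.H69Gauss

variable {ι : Type*} [Fintype ι]

/-- The Hermitian matrices used. -/
noncomputable def MM {N : ℕ} (e : ι → ℝ) (P : Matrix (Fin N) (Fin N) ℝ)
    (CA CB : ι → Matrix (Fin N) (Fin N) ℝ) (a : ι) : Matrix (Fin N) (Fin N) ℂ :=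
  (e a : ℂ) • cx (Pᵀ * P) + (cx (CA a) + Complex.I • cx (CB a))

/-- Conjugated family. -/
noncomputable def cj {N : ℕ} (P : Matrix (Fin N) (Fin N) ℝ)
    (C : ι → Matrix (Fin N) (Fin N) ℝ) (a : ι) : Matrix (Fin N) (Fin N) ℝ :=
  (P⁻¹)ᵀ * C a * P⁻¹

theorem cx_rmat {N : ℕ} (C : ι → Matrix (Fin N) (Fin N) ℝ) (x : ι → ℝ) :
    ∑ a, (x a : ℂ) • cx (C a) = cx (rmat C x) := by
  unfold rmat
  rw [map_sum]
  refine Finset.sum_congr rfl fun a _ => ?_
  rw [cx_smul]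

theorem sum_MM {N : ℕ} (e : ι → ℝ) (P : Matrix (Fin N) (Fin N) ℝ)
    (CA CB : ι → Matrix (Fin N) (Fin N) ℝ) (x : ι → ℝ) :
    ∑ a, (x a : ℂ) • MM e P CA CB a = ((∑ a, e a * x a : ℝ) : ℂ) • cx (Pᵀ * P) +
      (cx (rmat CA x) + Complex.I • cx (rmat CB x)) := by
  rw [← cx_rmat, ← cx_rmat]
  unfold MM
  simp only [smul_add, Finset.sum_add_distrib]
  congr 1
  · push_cast
    rw [Finset.sum_smul]
    refine Finset.sum_congr rfl fun a _ => ?_
    rw [smul_smul, mul_comm]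
  · congr 1
    rw [Finset.smul_sum]
    refine Finset.sum_congr rfl fun a _ => ?_
    rw [smul_comm]

theorem rmat_cj {N : ℕ} (P : Matrix (Fin N) (Fin N) ℝ)
    (C : ι → Matrix (Fin N) (Fin N) ℝ) (x : ι → ℝ) :
    rmat (cj P C) x = (P⁻¹)ᵀ * rmat C x * P⁻¹ := by
  unfold rmat cj
  rw [Finset.mul_sum, Finset.sum_mul]
  refine Finset.sum_congr rfl fun a _ => ?_
  rw [Matrix.mul_smul, Matrix.smul_mul]

theorem conj_identity {N : ℕ} {P : Matrix (Fin N) (Fin N) ℝ} (hP : P.det ≠ 0)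
    (X Y : Matrix (Fin N) (Fin N) ℝ) (ξ : ℂ) :
    ξ • cx (Pᵀ * P) + (cx X + Complex.I • cx Y) =
      cx Pᵀ * (ξ • (1 : Matrix (Fin N) (Fin N) ℂ) + (cx ((P⁻¹)ᵀ * X * P⁻¹) +
        Complex.I • cx ((P⁻¹)ᵀ * Y * P⁻¹))) * cx P := by
  have hu : IsUnit P.det := isUnit_iff_ne_zero.2 hP
  have h1 : P⁻¹ * P = 1 := Matrix.nonsing_inv_mul P hu
  have h2 : Pᵀ * (P⁻¹)ᵀ = 1 := by
    rw [← Matrix.transpose_mul, h1, Matrix.transpose_one]
  have key : ∀ Z : Matrix (Fin N) (Fin N) ℝ,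
      cx Pᵀ * cx ((P⁻¹)ᵀ * Z * P⁻¹) * cx P = cx Z := by
    intro Z
    rw [← map_mul, ← map_mul]
    congr 1
    calc Pᵀ * ((P⁻¹)ᵀ * Z * P⁻¹) * P = (Pᵀ * (P⁻¹)ᵀ) * Z * (P⁻¹ * P) := by
          simp only [Matrix.mul_assoc]
      _ = Z := by rw [h1, h2, Matrix.one_mul, Matrix.mul_one]
  rw [Matrix.mul_add, Matrix.mul_add, Matrix.add_mul, Matrix.add_mul, key, Matrix.mul_smul,
    Matrix.mul_smul, Matrix.smul_mul, Matrix.smul_mul, key, Matrix.mul_one, ← map_mul]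

theorem gb_lower [DecidableEq ι] {n : ℕ} (e : ι → ℝ) {P : Matrix (Fin (2 * n)) (Fin (2 * n)) ℝ}
    (hP : P.det ≠ 0) (CA CB : ι → Matrix (Fin (2 * n)) (Fin (2 * n)) ℝ) (T : Arr (2 * n))
    (hT : ∀ i j k l, ((T i j k l : ℝ) : ℂ) = ∑ a, (MM e P CA CB a i k * MM e P CA CB a j l -
      MM e P CA CB a i l * MM e P CA CB a j k))
    (L : (ι → ℝ) → ℝ) (hLi : Integrable L (gam ι))
    (hL : ∀ x, L x ≤ ((((∑ a, e a * x a : ℝ) : ℂ) •
      (1 : Matrix (Fin (2 * n)) (Fin (2 * n)) ℂ) + (cx (rmat (cj P CA) x) +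
        Complex.I • cx (rmat (cj P CB) x))).det).re) :
    4 ^ n * (n.factorial : ℝ) * (P.det ^ 2 * ∫ x, L x ∂(gam ι)) ≤ gaussBonnet n T := by
  have h1 := gb_eq_LG n (MM e P CA CB) T hT
  rw [LG_det] at h1
  have hint := integrable_det (MM e P CA CB)
  have h2 : gaussBonnet n T = 4 ^ n * (n.factorial : ℝ) *
      ∫ x : ι → ℝ, ((∑ a, (x a : ℂ) • MM e P CA CB a).det).re ∂(gam ι) := by
    have h3 := congrArg Complex.re h1
    have h4 := integral_re hint
    have h5 : ((4 : ℂ) ^ n * (n.factorial : ℂ)) = (((4 : ℝ) ^ n * (n.factorial : ℝ) : ℝ) : ℂ) := by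
      push_cast
      rfl
    rw [h5] at h3
    change gaussBonnet n T = _ at h3
    rw [h3, Complex.re_ofReal_mul]
    congr 1
    exact h4.symm
  rw [h2]
  refine mul_le_mul_of_nonneg_left ?_ (by positivity)
  rw [← integral_const_mul]
  refine integral_mono (hLi.const_mul _) hint.re fun x => ?_
  simp only
  rw [sum_MM, conj_identity hP, Matrix.det_mul, Matrix.det_mul, cx_det, cx_det,
    Matrix.det_transpose]
  have h6 : ∀ z : ℂ, ((P.det : ℂ) * z * (P.det : ℂ)).re = P.det ^ 2 * z.re := by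
    intro z
    have : (P.det : ℂ) * z * (P.det : ℂ) = ((P.det ^ 2 : ℝ) : ℂ) * z := by
      push_cast
      ring
    rw [this, Complex.re_ofReal_mul]
  refine le_trans ?_ (le_of_eq (h6 _).symm)
  refine mul_le_mul_of_nonneg_left ?_ (sq_nonneg _)
  have := hL x
  rw [rmat_cj, rmat_cj] at this
  exact this

theorem exists_root {n : ℕ} (hn : 1 ≤ n) {F : ℝ} (hF : 0 ≤ F) :
    ∃ α : ℝ, 0 ≤ α ∧ α ^ (2 * n) = F := by
  refine ⟨F ^ (((2 * n : ℕ) : ℝ)⁻¹), Real.rpow_nonneg hF _, ?_⟩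
  exact Real.rpow_inv_natCast_pow hF (by omega)

theorem norm_of_Phi {n : ℕ} (hn : 1 ≤ n) {C : ι → Matrix (Fin (2 * n)) (Fin (2 * n)) ℝ} {c : ℝ}
    (h : VarLe C c) (z : ι → ℝ) {α : ℝ} (hα : α ^ (2 * n) = Phi C n z)
    (x : Fin (2 * n) → ℝ) : sq2 ((rmat C z)ᵀ *ᵥ x) ≤ α ^ 2 * sq2 x := by
  have h1 := norm_le_Phi h n z x
  rw [← hα, pow_mul, ← mul_pow] at h1
  exact le_of_pow_le_pow_left₀ (by omega) (mul_nonneg (sq_nonneg _) (sq2_nonneg _)) h1

/-- Core estimate, general case. -/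
theorem core1 [DecidableEq ι] {n : ℕ} (hn : 1 ≤ n) (e : ι → ℝ) (he : ∑ a, e a ^ 2 = 1)
    {P : Matrix (Fin (2 * n)) (Fin (2 * n)) ℝ}
    (hP : P.det ≠ 0) (CA CB : ι → Matrix (Fin (2 * n)) (Fin (2 * n)) ℝ)
    (hA : ∀ a, (CA a)ᵀ = CA a) (hB : ∀ a, (CB a)ᵀ = - CB a) {a b : ℝ} (ha : 0 < a) (hb : 0 < b)
    (hab : a + b = 1 / 12) (hVA : VarLe (cj P CA) (a ^ 2)) (hVB : VarLe (cj P CB) (b ^ 2))
    (T : Arr (2 * n))
    (hT : ∀ i j k l, ((T i j k l : ℝ) : ℂ) = ∑ a, (MM e P CA CB a i k * MM e P CA CB a j l -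
      MM e P CA CB a i l * MM e P CA CB a j k)) :
    (1 / 2) * (4 / 9) ^ n * (2 ^ n * ((2 * n).factorial : ℝ)) * P.det ^ 2 ≤ gaussBonnet n T := by
  have hd := dff_pos n
  set c : ℝ := 4 ^ n + (4 / 9) ^ n with hc
  have hc0 : 0 ≤ c := by positivity
  set L : (ι → ℝ) → ℝ := fun x => (4 / 9) ^ n * (∑ a, e a * x a) ^ (2 * n) -
    c * (12 * a * ((12 * a) ^ (2 * n))⁻¹ * Phi (cj P CA) n x +
      12 * b * ((12 * b) ^ (2 * n))⁻¹ * Phi (cj P CB) n x) with hL
  have hLi : Integrable L (gam ι) :=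
    ((integrable_lin_pow e (2 * n)).const_mul _).sub
      ((((integrable_Phi hVA n).const_mul _).add ((integrable_Phi hVB n).const_mul _)).const_mul _)
  have hrA : ∀ x, (rmat (cj P CA) x)ᵀ = rmat (cj P CA) x := by
    intro x
    unfold rmat cj
    rw [Matrix.transpose_sum]
    refine Finset.sum_congr rfl fun i _ => ?_
    rw [Matrix.transpose_smul, Matrix.transpose_mul, Matrix.transpose_mul, hA,
      Matrix.transpose_transpose, Matrix.mul_assoc]
  have hrB : ∀ x, (rmat (cj P CB) x)ᵀ = - rmat (cj P CB) x := by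
    intro x
    unfold rmat cj
    rw [Matrix.transpose_sum, ← Finset.sum_neg_distrib]
    refine Finset.sum_congr rfl fun i _ => ?_
    rw [Matrix.transpose_smul, Matrix.transpose_mul, Matrix.transpose_mul, hB,
      Matrix.transpose_transpose, Matrix.neg_mul, Matrix.mul_neg, smul_neg, Matrix.mul_assoc]
  have h1 := gb_lower e hP CA CB T hT L hLi (by
    intro x
    obtain ⟨α, hα0, hα⟩ := exists_root hn (Phi_nonneg (cj P CA) n x)
    obtain ⟨β, hβ0, hβ⟩ := exists_root hn (Phi_nonneg (cj P CB) n x)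
    have hA2 : ∀ y, sq2 (rmat (cj P CA) x *ᵥ y) ≤ α ^ 2 * sq2 y := by
      intro y
      have := norm_of_Phi hn hVA x hα y
      rw [hrA] at this
      exact this
    have hB2 : ∀ y, sq2 (rmat (cj P CB) x *ᵥ y) ≤ β ^ 2 * sq2 y := by
      intro y
      have := norm_of_Phi hn hVB x hβ y
      rw [hrB, Matrix.neg_mulVec] at this
      refine le_trans (le_of_eq ?_) this
      unfold sq2
      exact Finset.sum_congr rfl fun i _ => by simp
    have h2 := det_lower1 (hrA x) (hrB x) hα0 hβ0 hA2 hB2 (∑ a, e a * x a)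
    refine le_trans ?_ h2
    rw [hL]
    simp only
    have hconv : (α + β) ^ (2 * n) ≤ 12 * a * ((12 * a) ^ (2 * n))⁻¹ * Phi (cj P CA) n x +
        12 * b * ((12 * b) ^ (2 * n))⁻¹ * Phi (cj P CB) n x := by
      have hcx := (convexOn_pow (𝕜 := ℝ) (2 * n)).2
        (show α / (12 * a) ∈ Set.Ici (0 : ℝ) from Set.mem_Ici.2 (by positivity))
        (show β / (12 * b) ∈ Set.Ici (0 : ℝ) from Set.mem_Ici.2 (by positivity))
        (show (0 : ℝ) ≤ 12 * a by positivity) (show (0 : ℝ) ≤ 12 * b by positivity)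
        (show 12 * a + 12 * b = 1 by linarith)
      simp only [smul_eq_mul] at hcx
      have e1 : 12 * a * (α / (12 * a)) + 12 * b * (β / (12 * b)) = α + β := by
        field_simp
      rw [e1] at hcx
      refine hcx.trans (le_of_eq ?_)
      rw [← hα, ← hβ, div_pow, div_pow]
      ring
    have := mul_le_mul_of_nonneg_left hconv hc0
    linarith)
  -- value of the integral
  have hint : ∫ x, L x ∂(gam ι) = (4 / 9) ^ n * dff n -
      c * (12 * a * ((12 * a) ^ (2 * n))⁻¹ * (∫ x, Phi (cj P CA) n x ∂(gam ι)) +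
      12 * b * ((12 * b) ^ (2 * n))⁻¹ * ∫ x, Phi (cj P CB) n x ∂(gam ι)) := by
    have j1 : Integrable (fun x => 12 * a * ((12 * a) ^ (2 * n))⁻¹ * Phi (cj P CA) n x) (gam ι) :=
      (integrable_Phi hVA n).const_mul _
    have j2 : Integrable (fun x => 12 * b * ((12 * b) ^ (2 * n))⁻¹ * Phi (cj P CB) n x) (gam ι) :=
      (integrable_Phi hVB n).const_mul _
    have j3 : Integrable (fun x => c * (12 * a * ((12 * a) ^ (2 * n))⁻¹ * Phi (cj P CA) n x +
      12 * b * ((12 * b) ^ (2 * n))⁻¹ * Phi (cj P CB) n x)) (gam ι) := (j1.add j2).const_mul _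
    rw [hL, integral_sub ((integrable_lin_pow e (2 * n)).const_mul _) j3,
      integral_const_mul, integral_const_mul, int_lin_pow, he, one_pow, mul_one,
      integral_add j1 j2, integral_const_mul, integral_const_mul]
  have iA := int_Phi hVA n hn (Fintype.card_fin _)
  have iB := int_Phi hVB n hn (Fintype.card_fin _)
  have key : ∀ s : ℝ, 0 < s → 12 * s * ((12 * s) ^ (2 * n))⁻¹ * ((s ^ 2) ^ n * (16 ^ n / 4) * dff n) =
      12 * s * ((1 / 9) ^ n / 4 * dff n) := by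
    intro s hs
    have e1 : (12 * s) ^ (2 * n) = 144 ^ n * (s ^ 2) ^ n := by
      rw [pow_mul, mul_pow, mul_pow]
      norm_num
    have e2 : (16 : ℝ) ^ n = 144 ^ n * (1 / 9) ^ n := by
      rw [← mul_pow]
      norm_num
    have h144 : (144 : ℝ) ^ n ≠ 0 := by positivity
    have hs2 : (s ^ 2) ^ n ≠ 0 := by positivity
    rw [e1, e2]
    field_simp
  have hlow : (4 / 9) ^ n * dff n * (13 / 18) ≤ ∫ x, L x ∂(gam ι) := by
    rw [hint]
    have jA : 12 * a * ((12 * a) ^ (2 * n))⁻¹ * (∫ x, Phi (cj P CA) n x ∂(gam ι)) ≤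
        12 * a * ((1 / 9) ^ n / 4 * dff n) := by
      rw [← key a ha]
      exact mul_le_mul_of_nonneg_left iA (by positivity)
    have jB : 12 * b * ((12 * b) ^ (2 * n))⁻¹ * (∫ x, Phi (cj P CB) n x ∂(gam ι)) ≤
        12 * b * ((1 / 9) ^ n / 4 * dff n) := by
      rw [← key b hb]
      exact mul_le_mul_of_nonneg_left iB (by positivity)
    have jAB : c * (12 * a * ((12 * a) ^ (2 * n))⁻¹ * (∫ x, Phi (cj P CA) n x ∂(gam ι)) +
        12 * b * ((12 * b) ^ (2 * n))⁻¹ * ∫ x, Phi (cj P CB) n x ∂(gam ι)) ≤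
        c * ((1 / 9) ^ n / 4 * dff n) := by
      refine mul_le_mul_of_nonneg_left ?_ hc0
      have h12 : 12 * a + 12 * b = 1 := by linarith
      calc _ ≤ 12 * a * ((1 / 9) ^ n / 4 * dff n) + 12 * b * ((1 / 9) ^ n / 4 * dff n) :=
            add_le_add jA jB
        _ = (12 * a + 12 * b) * ((1 / 9) ^ n / 4 * dff n) := by ring
        _ = _ := by rw [h12, one_mul]
    have e3 : c * ((1 / 9) ^ n / 4 * dff n) =
        (4 / 9) ^ n * dff n * ((1 + (1 / 9) ^ n) / 4) := by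
      rw [hc]
      have : (4 : ℝ) ^ n * (1 / 9) ^ n = (4 / 9) ^ n := by rw [← mul_pow]; norm_num
      calc _ = ((4 : ℝ) ^ n * (1 / 9) ^ n + (4 / 9) ^ n * (1 / 9) ^ n) * (dff n / 4) := by ring
        _ = _ := by rw [this]; ring
    have e4 : ((1 : ℝ) / 9) ^ n ≤ 1 / 9 := by
      calc ((1 : ℝ) / 9) ^ n ≤ (1 / 9) ^ 1 := pow_le_pow_of_le_one (by norm_num) (by norm_num) hn
        _ = 1 / 9 := by norm_num
    have e5 : (4 / 9 : ℝ) ^ n * dff n * ((1 + (1 / 9) ^ n) / 4) ≤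
        (4 / 9 : ℝ) ^ n * dff n * (10 / 36) :=
      mul_le_mul_of_nonneg_left (by linarith) (by positivity)
    rw [e3] at jAB
    linarith
  refine le_trans ?_ h1
  rw [factorial_dff]
  have hdet : 0 ≤ P.det ^ 2 := sq_nonneg _
  have e6 : (1 / 2 : ℝ) * ((4 / 9) ^ n * dff n) ≤ ∫ x, L x ∂(gam ι) := by
    have : 0 ≤ (4 / 9 : ℝ) ^ n * dff n := by positivity
    linarith
  have e7 : (4 : ℝ) ^ n = 2 ^ n * 2 ^ n := by rw [← mul_pow]; norm_num
  calc _ = 4 ^ n * (n.factorial : ℝ) * (P.det ^ 2 * ((1 / 2 : ℝ) * ((4 / 9) ^ n * dff n))) := by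
        rw [e7]; ring
    _ ≤ _ := by
        refine mul_le_mul_of_nonneg_left ?_ (by positivity)
        exact mul_le_mul_of_nonneg_left e6 hdet

/-- Core estimate, skew case. -/
theorem core2 [DecidableEq ι] {n : ℕ} (hn : 1 ≤ n) (e : ι → ℝ) (he : ∑ a, e a ^ 2 = 1)
    {P : Matrix (Fin (2 * n)) (Fin (2 * n)) ℝ}
    (hP : P.det ≠ 0) (CA CB : ι → Matrix (Fin (2 * n)) (Fin (2 * n)) ℝ)
    (hA : ∀ a, CA a = 0) (hB : ∀ a, (CB a)ᵀ = - CB a) {b : ℝ}
    (hb : 32 * b ^ 2 ≤ 1) (hVB : VarLe (cj P CB) (b ^ 2))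
    (T : Arr (2 * n))
    (hT : ∀ i j k l, ((T i j k l : ℝ) : ℂ) = ∑ a, (MM e P CA CB a i k * MM e P CA CB a j l -
      MM e P CA CB a i l * MM e P CA CB a j k)) :
    (1 / 2) * (4 / 9) ^ n * (2 ^ n * ((2 * n).factorial : ℝ)) * P.det ^ 2 ≤ gaussBonnet n T := by
  have hd := dff_pos n
  set c : ℝ := 1 + (1 / 2) ^ n with hc
  have hc0 : 0 ≤ c := by positivity
  set L : (ι → ℝ) → ℝ := fun x => (1 / 2) ^ n * (∑ a, e a * x a) ^ (2 * n) -
    c * Phi (cj P CB) n x with hL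
  have hLi : Integrable L (gam ι) :=
    ((integrable_lin_pow e (2 * n)).const_mul _).sub ((integrable_Phi hVB n).const_mul _)
  have hrA : ∀ x, rmat (cj P CA) x = 0 := by
    intro x
    unfold rmat cj
    refine Finset.sum_eq_zero fun i _ => ?_
    rw [hA, Matrix.mul_zero, Matrix.zero_mul, smul_zero]
  have hrB : ∀ x, (rmat (cj P CB) x)ᵀ = - rmat (cj P CB) x := by
    intro x
    unfold rmat cj
    rw [Matrix.transpose_sum, ← Finset.sum_neg_distrib]
    refine Finset.sum_congr rfl fun i _ => ?_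
    rw [Matrix.transpose_smul, Matrix.transpose_mul, Matrix.transpose_mul, hB,
      Matrix.transpose_transpose, Matrix.neg_mul, Matrix.mul_neg, smul_neg, Matrix.mul_assoc]
  have h1 := gb_lower e hP CA CB T hT L hLi (by
    intro x
    obtain ⟨β, hβ0, hβ⟩ := exists_root hn (Phi_nonneg (cj P CB) n x)
    have hB2 : ∀ y, sq2 (rmat (cj P CB) x *ᵥ y) ≤ β ^ 2 * sq2 y := by
      intro y
      have := norm_of_Phi hn hVB x hβ y
      rw [hrB, Matrix.neg_mulVec] at this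
      refine le_trans (le_of_eq ?_) this
      unfold sq2
      exact Finset.sum_congr rfl fun i _ => by simp
    have h2 := det_lower2 (hrB x) hβ0 hB2 (∑ a, e a * x a)
    rw [hrA x]
    refine le_trans (le_of_eq ?_) h2
    rw [hL, hβ])
  have hint : ∫ x, L x ∂(gam ι) = (1 / 2) ^ n * dff n -
      c * ∫ x, Phi (cj P CB) n x ∂(gam ι) := by
    rw [hL]
    rw [integral_sub ((integrable_lin_pow e (2 * n)).const_mul _)
      ((integrable_Phi hVB n).const_mul _),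
      integral_const_mul, integral_const_mul, int_lin_pow, he, one_pow, mul_one]
  have iB := int_Phi hVB n hn (Fintype.card_fin _)
  have hlow : (1 / 2) ^ n * dff n * (5 / 8) ≤ ∫ x, L x ∂(gam ι) := by
    rw [hint]
    have e1 : (b ^ 2) ^ n * (16 ^ n / 4) * dff n ≤ (1 / 2) ^ n / 4 * dff n := by
      have : (b ^ 2) ^ n * 16 ^ n ≤ (1 / 2) ^ n := by
        rw [← mul_pow]
        exact pow_le_pow_left₀ (by positivity) (by linarith) n
      have h4 : (b ^ 2) ^ n * (16 ^ n / 4) * dff n = (b ^ 2) ^ n * 16 ^ n * (dff n / 4) := by ring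
      rw [h4]
      calc _ ≤ (1 / 2 : ℝ) ^ n * (dff n / 4) :=
            mul_le_mul_of_nonneg_right this (by positivity)
        _ = _ := by ring
    have e2 : c ≤ 3 / 2 := by
      have : ((1 : ℝ) / 2) ^ n ≤ 1 / 2 := by
        calc ((1 : ℝ) / 2) ^ n ≤ (1 / 2) ^ 1 := pow_le_pow_of_le_one (by norm_num) (by norm_num) hn
          _ = 1 / 2 := by norm_num
      rw [hc]
      linarith
    have e3 : c * ∫ x, Phi (cj P CB) n x ∂(gam ι) ≤ (3 / 2) * ((1 / 2) ^ n / 4 * dff n) := by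
      calc c * ∫ x, Phi (cj P CB) n x ∂(gam ι) ≤ c * ((1 / 2) ^ n / 4 * dff n) :=
            mul_le_mul_of_nonneg_left (iB.trans e1) hc0
        _ ≤ _ := mul_le_mul_of_nonneg_right e2 (by positivity)
    linarith
  refine le_trans ?_ h1
  rw [factorial_dff]
  have hdet : 0 ≤ P.det ^ 2 := sq_nonneg _
  have e6 : (1 / 2 : ℝ) * ((4 / 9) ^ n * dff n) ≤ ∫ x, L x ∂(gam ι) := by
    have h3 : (4 / 9 : ℝ) ^ n ≤ (1 / 2) ^ n := pow_le_pow_left₀ (by norm_num) (by norm_num) n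
    have h4 : (4 / 9 : ℝ) ^ n * dff n ≤ (1 / 2) ^ n * dff n :=
      mul_le_mul_of_nonneg_right h3 hd.le
    have : 0 ≤ (1 / 2 : ℝ) ^ n * dff n := by positivity
    linarith
  have e7 : (4 : ℝ) ^ n = 2 ^ n * 2 ^ n := by rw [← mul_pow]; norm_num
  calc _ = 4 ^ n * (n.factorial : ℝ) * (P.det ^ 2 * ((1 / 2 : ℝ) * ((4 / 9) ^ n * dff n))) := by
        rw [e7]; ring
    _ ≤ _ := by
        refine mul_le_mul_of_nonneg_left ?_ (by positivity)
        exact mul_le_mul_of_nonneg_left e6 hdet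

end Pool.Agent.H69Gauss
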