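import Pool.Agent.Lib.H69.Gauss.FinalDefs
import Pool.Agent.Lib.H69.Gauss.Core

/-!
# The dimension-free theorem
-/

open Finset Matrix
open scoped MatrixOrder
open Pool.Agent.H69Hopf

namespace Pool.Agent.H69Gauss

section bil

variable {N : ℕ} (A : Matrix (Fin N) (Fin N) ℝ)

theorem bilin_eq_bil (x y : Fin N → ℝ) : bilin A x y = bil A x y := rfl

theorem bil_add_left (x x' y : Fin N → ℝ) : bil A (x + x') y = bil A x y + bil A x' y := by
  unfold bil
  simp only [Pi.add_apply, add_mul, Finset.sum_add_distrib]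

theorem bil_add_right (x y y' : Fin N → ℝ) : bil A x (y + y') = bil A x y + bil A x y' := by
  unfold bil
  simp only [Pi.add_apply, mul_add, Finset.sum_add_distrib]

theorem bil_smul_left (r : ℝ) (x y : Fin N → ℝ) : bil A (r • x) y = r * bil A x y := by
  unfold bil
  rw [Finset.mul_sum]
  refine Finset.sum_congr rfl fun i _ => ?_
  rw [Finset.mul_sum]
  refine Finset.sum_congr rfl fun j _ => ?_
  rw [Pi.smul_apply, smul_eq_mul]
  ring

theorem bil_smul_right (r : ℝ) (x y : Fin N → ℝ) : bil A x (r • y) = r * bil A x y := by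
  unfold bil
  rw [Finset.mul_sum]
  refine Finset.sum_congr rfl fun i _ => ?_
  rw [Finset.mul_sum]
  refine Finset.sum_congr rfl fun j _ => ?_
  rw [Pi.smul_apply, smul_eq_mul]
  ring

theorem bil_symm {A : Matrix (Fin N) (Fin N) ℝ} (hA : Aᵀ = A) (x y : Fin N → ℝ) :
    bil A x y = bil A y x := by
  unfold bil
  rw [Finset.sum_comm]
  refine Finset.sum_congr rfl fun i _ => Finset.sum_congr rfl fun j _ => ?_
  have : A j i = A i j := by
    have := congrFun (congrFun hA i) j
    simpa using this
  rw [this]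
  ring

theorem bil_polar {A : Matrix (Fin N) (Fin N) ℝ} (hA : Aᵀ = A) (r : ℝ) (x y : Fin N → ℝ) :
    bil A (r • x + y) (r • x + y) - bil A (r • x + (-1 : ℝ) • y) (r • x + (-1 : ℝ) • y) =
      4 * r * bil A x y := by
  simp only [bil_add_left, bil_add_right, bil_smul_left, bil_smul_right]
  rw [bil_symm hA y x]
  ring

theorem bil_polar_add {A : Matrix (Fin N) (Fin N) ℝ} (hA : Aᵀ = A) (r : ℝ) (x y : Fin N → ℝ) :
    bil A (r • x + y) (r • x + y) + bil A (r • x + (-1 : ℝ) • y) (r • x + (-1 : ℝ) • y) =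
      2 * r ^ 2 * bil A x x + 2 * bil A y y := by
  simp only [bil_add_left, bil_add_right, bil_smul_left, bil_smul_right]
  rw [bil_symm hA y x]
  ring

end bil

/-- Polarisation of the bound for a vector valued symmetric bilinear form. -/
theorem polar_bound {N p : ℕ} {h : Matrix (Fin N) (Fin N) ℝ} (hh : hᵀ = h)
    (hpos : ∀ x, 0 ≤ bil h x x) {A : Fin p → Matrix (Fin N) (Fin N) ℝ}
    (hA : ∀ α, (A α)ᵀ = A α) {a : ℝ} (ha : 0 ≤ a)
    (hAa : ∀ x, ∑ α, bil (A α) x x ^ 2 ≤ a ^ 2 * bil h x x ^ 2) (x y : Fin N → ℝ) :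
    ∑ α, bil (A α) x y ^ 2 ≤ a ^ 2 * (bil h x x * bil h y y) := by
  set s := ∑ α, bil (A α) x y ^ 2 with hs
  have hs0 : 0 ≤ s := Finset.sum_nonneg fun _ _ => sq_nonneg _
  have hX := hpos x
  have hY := hpos y
  -- Cauchy–Schwarz
  have hcs : ∀ u : Fin N → ℝ, |∑ α, bil (A α) x y * bil (A α) u u| ≤ √s * (a * bil h u u) := by
    intro u
    refine abs_le_of_sq_le_sq ?_ (mul_nonneg (Real.sqrt_nonneg _) (mul_nonneg ha (hpos u)))
    calc (∑ α, bil (A α) x y * bil (A α) u u) ^ 2 ≤
          (∑ α, bil (A α) x y ^ 2) * ∑ α, bil (A α) u u ^ 2 :=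
          Finset.sum_mul_sq_le_sq_mul_sq _ _ _
      _ ≤ s * (a ^ 2 * bil h u u ^ 2) := mul_le_mul_of_nonneg_left (hAa u) hs0
      _ = (√s * (a * bil h u u)) ^ 2 := by
          rw [mul_pow, Real.sq_sqrt hs0]
          ring
  have key : ∀ r : ℝ, 0 ≤ (a * bil h x x) * (r * r) + (-2 * √s) * r + a * bil h y y := by
    intro r
    by_cases hr : r ≤ 0
    · have : 0 ≤ √s := Real.sqrt_nonneg _
      have h1 : 0 ≤ (a * bil h x x) * (r * r) := mul_nonneg (mul_nonneg ha hX) (mul_self_nonneg _)
      have h2 : 0 ≤ a * bil h y y := mul_nonneg ha hY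
      have h3 : 0 ≤ (-2 * √s) * r := by nlinarith
      linarith
    · push Not at hr
      have h1 := (abs_le.1 (hcs (r • x + y))).2
      have h2 := (abs_le.1 (hcs (r • x + (-1 : ℝ) • y))).1
      have h3 : (∑ α, bil (A α) x y * bil (A α) (r • x + y) (r • x + y)) -
          (∑ α, bil (A α) x y * bil (A α) (r • x + (-1 : ℝ) • y) (r • x + (-1 : ℝ) • y)) =
          4 * r * s := by
        rw [← Finset.sum_sub_distrib, hs, Finset.mul_sum]
        refine Finset.sum_congr rfl fun α _ => ?_
        rw [← mul_sub, bil_polar (hA α)]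
        ring
      have h4 := bil_polar_add hh r x y
      have h5 : 4 * r * s ≤ √s * (a * (2 * r ^ 2 * bil h x x + 2 * bil h y y)) := by
        rw [← h4, ← h3]
        linarith
      by_cases hs1 : s = 0
      · rw [hs1, Real.sqrt_zero]
        have h1 : 0 ≤ (a * bil h x x) * (r * r) := mul_nonneg (mul_nonneg ha hX) (mul_self_nonneg _)
        have h2 : 0 ≤ a * bil h y y := mul_nonneg ha hY
        linarith
      · have hsp : 0 < √s := Real.sqrt_pos.2 (lt_of_le_of_ne hs0 (Ne.symm hs1))
        have h6 : √s * (4 * r * √s) ≤ √s * (a * (2 * r ^ 2 * bil h x x + 2 * bil h y y)) := by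
          have : √s * (4 * r * √s) = 4 * r * (√s * √s) := by ring
          rw [this, Real.mul_self_sqrt hs0]
          exact h5
        have h7 := le_of_mul_le_mul_left h6 hsp
        nlinarith
  have hd := discrim_le_zero key
  unfold discrim at hd
  have h8 : (-2 * √s) ^ 2 = 4 * s := by
    rw [mul_pow, Real.sq_sqrt hs0]
    norm_num
  rw [h8] at hd
  nlinarith

theorem kn_algCurv {N : ℕ} {A : Matrix (Fin N) (Fin N) ℝ} (hA : Aᵀ = A) : IsAlgCurv (kn A) := by
  have hs : ∀ i j, A i j = A j i := fun i j => by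
    have := congrFun (congrFun hA j) i
    simpa using this
  constructor
  · intro i j k l
    unfold kn
    ring
  · intro i j k l
    unfold kn
    rw [hs k i, hs l j, hs k j, hs l i]
    ring
  · intro i j k l
    unfold kn
    rw [hs j i, hs k i, hs k j]
    ring

theorem ev_kn {N : ℕ} {A : Matrix (Fin N) (Fin N) ℝ} (hA : Aᵀ = A) (x y : Fin N → ℝ) :
    ev (kn A) x y x y = bil A x x * bil A y y - bil A x y ^ 2 := by
  have h1 : bil A x x * bil A y y = ∑ i, ∑ j, ∑ k, ∑ l, A i k * A j l * x i * y j * x k * y l := by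
    unfold bil
    rw [Finset.sum_mul_sum]
    refine Finset.sum_congr rfl fun i _ => Finset.sum_congr rfl fun j _ => ?_
    rw [Finset.sum_mul_sum]
    refine Finset.sum_congr rfl fun k _ => Finset.sum_congr rfl fun l _ => ?_
    ring
  have h2 : bil A x y ^ 2 = ∑ i, ∑ j, ∑ k, ∑ l, A i l * A j k * x i * y j * x k * y l := by
    rw [sq]
    conv_lhs => rw [bil_symm hA x y]
    rw [bil_symm hA y x]
    conv_lhs => rw [mul_comm]
    have h3 : bil A x y * bil A x y = bil A x y * bil A y x := by rw [bil_symm hA y x]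
    rw [h3]
    unfold bil
    rw [Finset.sum_mul_sum]
    refine Finset.sum_congr rfl fun i _ => Finset.sum_congr rfl fun j _ => ?_
    rw [Finset.sum_mul_sum, Finset.sum_comm]
    refine Finset.sum_congr rfl fun k _ => Finset.sum_congr rfl fun l _ => ?_
    ring
  rw [h1, h2]
  unfold ev kn
  simp only [← Finset.sum_sub_distrib]
  refine Finset.sum_congr rfl fun i _ => Finset.sum_congr rfl fun j _ =>
    Finset.sum_congr rfl fun k _ => Finset.sum_congr rfl fun l _ => ?_
  ring

/-- A nonnegative curvature operator is a sum of squares of skew matrices. -/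
theorem exists_sqrt {N : ℕ} {S : Arr N} (hS : IsAlgCurv S)
    (hop : ∀ X : Fin N → Fin N → ℝ, (∀ i j, X i j = - X j i) → 0 ≤ opForm S X) :
    ∃ B : Fin N × Fin N → Matrix (Fin N) (Fin N) ℝ, (∀ β, (B β)ᵀ = - B β) ∧
      ∀ i j k l, S i j k l = ∑ β, B β i j * B β k l := by
  set M : Matrix (Fin N × Fin N) (Fin N × Fin N) ℝ := fun p q => S p.1 p.2 q.1 q.2 with hM
  have hskew2 : ∀ i j k l, S i j k l = - S i j l k := by
    intro i j k l
    rw [hS.pair i j k l, hS.skew k l i j, hS.pair l k i j]
  have hpsd : M.PosSemidef := by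
    refine Matrix.PosSemidef.of_dotProduct_mulVec_nonneg ?_ ?_
    · ext p q
      simp only [hM, Matrix.conjTranspose_apply, star_trivial]
      exact hS.pair _ _ _ _
    · intro x
      have h1 := hop (fun i j => x (i, j) - x (j, i)) (fun i j => by ring)
      have h2 : opForm S (fun i j => x (i, j) - x (j, i)) =
          4 * ∑ i, ∑ j, ∑ k, ∑ l, S i j k l * x (i, j) * x (k, l) := by
        have e1 : ∀ f : Fin N → Fin N → Fin N → Fin N → ℝ,
            (∑ i, ∑ j, ∑ k, ∑ l, f i j k l) = ∑ i, ∑ j, ∑ k, ∑ l, f j i k l :=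
          fun f => Finset.sum_comm
        have e2 : ∀ f : Fin N → Fin N → Fin N → Fin N → ℝ,
            (∑ i, ∑ j, ∑ k, ∑ l, f i j k l) = ∑ i, ∑ j, ∑ k, ∑ l, f i j l k :=
          fun f => Finset.sum_congr rfl fun i _ => Finset.sum_congr rfl fun j _ => Finset.sum_comm
        set G := ∑ i, ∑ j, ∑ k, ∑ l, S i j k l * x (i, j) * x (k, l) with hG
        have g1 : (∑ i, ∑ j, ∑ k, ∑ l, S i j k l * x (j, i) * x (k, l)) = - G := by
          rw [e1, hG]
          simp only [← Finset.sum_neg_distrib]
          refine Finset.sum_congr rfl fun i _ => Finset.sum_congr rfl fun j _ =>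
            Finset.sum_congr rfl fun k _ => Finset.sum_congr rfl fun l _ => ?_
          rw [hS.skew j i k l]
          ring
        have g2 : (∑ i, ∑ j, ∑ k, ∑ l, S i j k l * x (i, j) * x (l, k)) = - G := by
          rw [e2, hG]
          simp only [← Finset.sum_neg_distrib]
          refine Finset.sum_congr rfl fun i _ => Finset.sum_congr rfl fun j _ =>
            Finset.sum_congr rfl fun k _ => Finset.sum_congr rfl fun l _ => ?_
          rw [hskew2 i j l k]
          ring
        have g3 : (∑ i, ∑ j, ∑ k, ∑ l, S i j k l * x (j, i) * x (l, k)) = G := by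
          rw [e1, e2, hG]
          refine Finset.sum_congr rfl fun i _ => Finset.sum_congr rfl fun j _ =>
            Finset.sum_congr rfl fun k _ => Finset.sum_congr rfl fun l _ => ?_
          rw [hS.skew j i l k, hskew2 i j l k]
          ring
        have g4 : opForm S (fun i j => x (i, j) - x (j, i)) = G -
            (∑ i, ∑ j, ∑ k, ∑ l, S i j k l * x (j, i) * x (k, l)) -
            (∑ i, ∑ j, ∑ k, ∑ l, S i j k l * x (i, j) * x (l, k)) +
            (∑ i, ∑ j, ∑ k, ∑ l, S i j k l * x (j, i) * x (l, k)) := by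
          rw [hG]
          unfold opForm
          simp only [← Finset.sum_sub_distrib, ← Finset.sum_add_distrib]
          refine Finset.sum_congr rfl fun i _ => Finset.sum_congr rfl fun j _ =>
            Finset.sum_congr rfl fun k _ => Finset.sum_congr rfl fun l _ => ?_
          ring
        rw [g4, g1, g2, g3]
        ring
      have h3 : star x ⬝ᵥ M *ᵥ x = ∑ i, ∑ j, ∑ k, ∑ l, S i j k l * x (i, j) * x (k, l) := by
        simp only [dotProduct, Matrix.mulVec, Fintype.sum_prod_type, hM, Pi.star_apply, star_trivial]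
        refine Finset.sum_congr rfl fun i _ => Finset.sum_congr rfl fun j _ => ?_
        rw [Finset.mul_sum]
        refine Finset.sum_congr rfl fun k _ => ?_
        rw [Finset.mul_sum]
        refine Finset.sum_congr rfl fun l _ => ?_
        ring
      rw [h3]
      linarith
  obtain ⟨C, hC⟩ := CStarAlgebra.nonneg_iff_eq_star_mul_self.mp hpsd.nonneg
  have hSC : ∀ i j k l, S i j k l = ∑ β, C β (i, j) * C β (k, l) := by
    intro i j k l
    have := congrFun (congrFun hC (i, j)) (k, l)
    simp only [hM] at this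
    rw [this, Matrix.mul_apply]
    refine Finset.sum_congr rfl fun β _ => ?_
    simp [Matrix.star_apply]
  refine ⟨fun β => Matrix.of fun i j => C β (i, j), ?_, ?_⟩
  · intro β
    ext i j
    have h0 : ∑ β, (C β (i, j) + C β (j, i)) ^ 2 = 0 := by
      have e1 : ∑ β, (C β (i, j) + C β (j, i)) ^ 2 =
          (∑ β, C β (i, j) * C β (i, j)) + 2 * (∑ β, C β (i, j) * C β (j, i)) +
          ∑ β, C β (j, i) * C β (j, i) := by
        rw [Finset.mul_sum, ← Finset.sum_add_distrib, ← Finset.sum_add_distrib]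
        exact Finset.sum_congr rfl fun _ _ => by ring
      rw [e1, ← hSC, ← hSC, ← hSC, hS.skew j i j i, hskew2 i j j i]
      ring
    have h1 := (Finset.sum_eq_zero_iff_of_nonneg (fun _ _ => sq_nonneg _)).1 h0 β
      (Finset.mem_univ _)
    have h2 : C β (i, j) + C β (j, i) = 0 := by
      exact pow_eq_zero_iff (two_ne_zero) |>.1 h1
    simp only [Matrix.transpose_apply, Matrix.of_apply, Matrix.neg_apply]
    linarith
  · intro i j k l
    rw [hSC]
    rfl

end Pool.Agent.H69Gauss
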