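import Pool.Agent.Lib.H69.Gauss.Final

/-!
# The dimension-free theorem, conclusion
-/

open Finset Matrix
open scoped MatrixOrder
open Pool.Agent.H69Hopf

namespace Pool.Agent.H69Gauss

theorem bil_cj {ι : Type*} {N : ℕ} (P : Matrix (Fin N) (Fin N) ℝ)
    (C : ι → Matrix (Fin N) (Fin N) ℝ) (a : ι) (x y : Fin N → ℝ) :
    bil (cj P C a) x y = bil (C a) (P⁻¹ *ᵥ x) (P⁻¹ *ᵥ y) := by
  have h : ∀ (D : Matrix (Fin N) (Fin N) ℝ) (u v : Fin N → ℝ), bil D u v = u ⬝ᵥ (D *ᵥ v) := by
    intro D u v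
    rw [bil_eq_left, dotProduct]
    exact Finset.sum_congr rfl fun i _ => mul_comm _ _
  rw [h, h]
  unfold cj
  rw [← Matrix.mulVec_mulVec, ← Matrix.mulVec_mulVec, Matrix.dotProduct_mulVec,
    Matrix.vecMul_transpose]

theorem bil_transpose_mul {N : ℕ} (P : Matrix (Fin N) (Fin N) ℝ) (x : Fin N → ℝ) :
    bil (Pᵀ * P) x x = sq2 (P *ᵥ x) := by
  have h : ∀ (D : Matrix (Fin N) (Fin N) ℝ) (u v : Fin N → ℝ), bil D u v = u ⬝ᵥ (D *ᵥ v) := by
    intro D u v
    rw [bil_eq_left, dotProduct]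
    exact Finset.sum_congr rfl fun i _ => mul_comm _ _
  rw [h, ← Matrix.mulVec_mulVec, Matrix.dotProduct_mulVec, Matrix.vecMul_transpose]
  unfold sq2 dotProduct
  exact Finset.sum_congr rfl fun i _ => by rw [sq]

theorem matrix_eq_zero_of_bil {N : ℕ} {A : Matrix (Fin N) (Fin N) ℝ} (hA : Aᵀ = A)
    (h : ∀ x, bil A x x = 0) : A = 0 := by
  have h1 : ∀ x y, bil A x y = 0 := by
    intro x y
    have := bil_polar hA 1 x y
    rw [h, h] at this
    linarith
  ext i j
  have h2 := h1 (Pi.single i 1) (Pi.single j 1)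
  unfold bil at h2
  rw [Finset.sum_eq_single i, Finset.sum_eq_single j] at h2
  · simpa using h2
  · intro k _ hk
    simp [hk]
  · simp
  · intro k _ hk
    simp [hk]
  · simp

theorem gaussBonnet_neg {n : ℕ} (R : Arr (2 * n)) :
    gaussBonnet n (fun i j k l => - R i j k l) = (-1) ^ n * gaussBonnet n R := by
  unfold gaussBonnet
  rw [Finset.mul_sum]
  refine Finset.sum_congr rfl fun σ _ => ?_
  rw [Finset.mul_sum]
  refine Finset.sum_congr rfl fun τ _ => ?_
  rw [Finset.prod_neg, Finset.card_univ, Fintype.card_fin]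
  ring

theorem VarLe_mono {ι m : Type*} [Fintype ι] [Fintype m] {C : ι → Matrix m m ℝ} {c d : ℝ}
    (h : VarLe C c) (hcd : c ≤ d) : VarLe C d := fun x y =>
  (h x y).trans (mul_le_mul_of_nonneg_right hcd (mul_nonneg (sq2_nonneg _) (sq2_nonneg _)))

theorem dimension_free {n : ℕ} (hn : 1 ≤ n) {h : Matrix (Fin (2 * n)) (Fin (2 * n)) ℝ}
    (hh : h.PosDef) {p : ℕ} {A : Fin p → Matrix (Fin (2 * n)) (Fin (2 * n)) ℝ}
    (hA : ∀ α, (A α)ᵀ = A α) {R : Arr (2 * n)} (hR : IsAlgCurv R) {a b : ℝ} (ha : 0 ≤ a)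
    (hb : 0 ≤ b) (hab : a + b < 1 / 12 ∨ (a = 0 ∧ 32 * b ^ 2 ≤ 1))
    (hAa : ∀ x, ∑ α, bilin (A α) x x ^ 2 ≤ a ^ 2 * bilin h x x ^ 2)
    (hop : ∀ X : Fin (2 * n) → Fin (2 * n) → ℝ, (∀ i j, X i j = - X j i) →
      -(opForm (kn h) X + ∑ α, opForm (kn (A α)) X) ≤ opForm R X)
    (hsec : ∀ x y, ev R x y x y + ev (kn h) x y x y + ∑ α, ev (kn (A α)) x y x y ≤
      b ^ 2 * ev (kn h) x y x y) :
    (1 / 2) * (4 / 9) ^ n * (2 ^ n * ((2 * n).factorial : ℝ)) * h.det ≤
      (-1) ^ n * gaussBonnet n R := by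
  classical
  have hhs : hᵀ = h := by
    have := hh.isHermitian
    unfold Matrix.IsHermitian at this
    rwa [Matrix.conjTranspose_eq_transpose_of_trivial] at this
  -- the tensor `S`
  set S : Arr (2 * n) := fun i j k l => R i j k l + kn h i j k l + ∑ α, kn (A α) i j k l with hS
  have hSA : IsAlgCurv S := by
    have h1 := kn_algCurv hhs
    have h2 := fun α => kn_algCurv (hA α)
    constructor
    · intro i j k l
      simp only [hS]
      rw [hR.skew, h1.skew, Finset.sum_congr rfl (fun α _ => (h2 α).skew i j k l),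
        Finset.sum_neg_distrib]
      ring
    · intro i j k l
      simp only [hS]
      rw [hR.pair, h1.pair, Finset.sum_congr rfl (fun α _ => (h2 α).pair i j k l)]
    · intro i j k l
      simp only [hS]
      have e1 := hR.bianchi i j k l
      have e2 := h1.bianchi i j k l
      have e3 : (∑ α, kn (A α) i j k l) + (∑ α, kn (A α) j k i l) + (∑ α, kn (A α) k i j l) = 0 := by
        rw [← Finset.sum_add_distrib, ← Finset.sum_add_distrib]
        exact Finset.sum_eq_zero fun α _ => (h2 α).bianchi i j k l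
      linarith
  have hSop : ∀ X : Fin (2 * n) → Fin (2 * n) → ℝ, (∀ i j, X i j = - X j i) → 0 ≤ opForm S X := by
    intro X hX
    have h1 := hop X hX
    have h2 : opForm S X = opForm R X + opForm (kn h) X + ∑ α, opForm (kn (A α)) X := by
      have e1 : ∑ α, opForm (kn (A α)) X =
          ∑ i, ∑ j, ∑ k, ∑ l, (∑ α, kn (A α) i j k l) * X i j * X k l := by
        unfold opForm
        rw [Finset.sum_comm]
        refine Finset.sum_congr rfl fun i _ => ?_
        rw [Finset.sum_comm]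
        refine Finset.sum_congr rfl fun j _ => ?_
        rw [Finset.sum_comm]
        refine Finset.sum_congr rfl fun k _ => ?_
        rw [Finset.sum_comm]
        refine Finset.sum_congr rfl fun l _ => ?_
        rw [Finset.sum_mul, Finset.sum_mul]
      rw [e1]
      unfold opForm
      simp only [← Finset.sum_add_distrib]
      refine Finset.sum_congr rfl fun i _ => Finset.sum_congr rfl fun j _ =>
        Finset.sum_congr rfl fun k _ => Finset.sum_congr rfl fun l _ => ?_
      simp only [hS]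
      ring
    rw [h2]
    linarith
  obtain ⟨B, hBs, hB⟩ := exists_sqrt hSA hSop
  have hSev : ∀ x y, ∑ β, bil (B β) x y ^ 2 = ev S x y x y := by
    intro x y
    have e1 : ∀ β, bil (B β) x y ^ 2 = ∑ i, ∑ j, ∑ k, ∑ l,
        B β i j * B β k l * x i * y j * x k * y l := by
      intro β
      rw [sq]
      unfold bil
      rw [Finset.sum_mul_sum, Finset.sum_comm]
      have e2 : ∀ i k, (∑ j, x i * B β i j * y j) * (∑ l, x k * B β k l * y l) =
          ∑ j, ∑ l, B β i j * B β k l * x i * y j * x k * y l := by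
        intro i k
        rw [Finset.sum_mul_sum]
        refine Finset.sum_congr rfl fun j _ => Finset.sum_congr rfl fun l _ => ?_
        ring
      simp only [e2]
      rw [Finset.sum_comm]
      refine Finset.sum_congr rfl fun i _ => ?_
      rw [Finset.sum_comm]
    simp only [e1]
    unfold ev
    rw [Finset.sum_comm]
    refine Finset.sum_congr rfl fun i _ => ?_
    rw [Finset.sum_comm]
    refine Finset.sum_congr rfl fun j _ => ?_
    rw [Finset.sum_comm]
    refine Finset.sum_congr rfl fun k _ => ?_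
    rw [Finset.sum_comm]
    refine Finset.sum_congr rfl fun l _ => ?_
    rw [hB i j k l]
    simp only [Finset.sum_mul]
  have hSB : ∀ i j k l, ∑ β, (B β i k * B β j l - B β i l * B β j k) = S i j k l := by
    intro i j k l
    have hsk : ∀ β u v, B β u v = - B β v u := by
      intro β u v
      have := congrFun (congrFun (hBs β) v) u
      simpa using this
    have e1 : ∑ β, (B β i k * B β j l - B β i l * B β j k) =
        - (∑ β, B β k i * B β j l) - ∑ β, B β j k * B β i l := by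
      rw [← Finset.sum_neg_distrib, ← Finset.sum_sub_distrib]
      refine Finset.sum_congr rfl fun β _ => ?_
      rw [hsk β k i]
      ring
    rw [e1, ← hB, ← hB]
    have := hSA.bianchi i j k l
    linarith
  -- the square root of `h`
  obtain ⟨P, hP⟩ := CStarAlgebra.nonneg_iff_eq_star_mul_self.mp hh.posSemidef.nonneg
  have hP' : h = Pᵀ * P := by
    rw [hP, Matrix.star_eq_conjTranspose, Matrix.conjTranspose_eq_transpose_of_trivial]
  have hdet : h.det = P.det ^ 2 := by
    rw [hP', Matrix.det_mul, Matrix.det_transpose, sq]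
  have hPd : P.det ≠ 0 := by
    intro h0
    have := hh.det_pos
    rw [hdet, h0] at this
    simp at this
  have hPu : IsUnit P.det := isUnit_iff_ne_zero.2 hPd
  have hPP : ∀ x : Fin (2 * n) → ℝ, P *ᵥ (P⁻¹ *ᵥ x) = x := by
    intro x
    rw [Matrix.mulVec_mulVec, Matrix.mul_nonsing_inv P hPu, Matrix.one_mulVec]
  have hhx : ∀ x : Fin (2 * n) → ℝ, bil h (P⁻¹ *ᵥ x) (P⁻¹ *ᵥ x) = sq2 x := by
    intro x
    rw [hP', bil_transpose_mul, hPP]
  have hpos : ∀ x, 0 ≤ bil h x x := by
    intro x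
    rw [hP', bil_transpose_mul]
    exact sq2_nonneg _
  -- the families
  set CA : Option (Fin p ⊕ (Fin (2 * n) × Fin (2 * n))) → Matrix (Fin (2 * n)) (Fin (2 * n)) ℝ :=
    fun o => match o with
      | none => 0
      | some (Sum.inl α) => A α
      | some (Sum.inr _) => 0 with hCA
  set CB : Option (Fin p ⊕ (Fin (2 * n) × Fin (2 * n))) → Matrix (Fin (2 * n)) (Fin (2 * n)) ℝ :=
    fun o => match o with
      | none => 0
      | some (Sum.inl _) => 0
      | some (Sum.inr β) => B β with hCB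
  set e : Option (Fin p ⊕ (Fin (2 * n) × Fin (2 * n))) → ℝ :=
    fun o => match o with
      | none => 1
      | some _ => 0 with he
  have he1 : ∑ o, e o ^ 2 = 1 := by
    rw [Fintype.sum_option]
    simp [he]
  have hCAs : ∀ o, (CA o)ᵀ = CA o := by
    intro o
    rcases o with _ | α | β
    · simp [hCA]
    · exact hA α
    · simp [hCA]
  have hCBs : ∀ o, (CB o)ᵀ = - CB o := by
    intro o
    rcases o with _ | α | β
    · simp [hCB]
    · simp [hCB]
    · exact hBs β
  have hVA : VarLe (cj P CA) (a ^ 2) := by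
    intro x y
    have h1 := polar_bound hhs hpos hA ha hAa (P⁻¹ *ᵥ x) (P⁻¹ *ᵥ y)
    rw [hhx, hhx] at h1
    refine le_trans (le_of_eq ?_) h1
    rw [Fintype.sum_option, Fintype.sum_sum_type]
    simp only [bil_cj, hCA]
    simp [bil]
  have hVB : VarLe (cj P CB) (b ^ 2) := by
    intro x y
    have h1 := hSev (P⁻¹ *ᵥ x) (P⁻¹ *ᵥ y)
    have h2 : ev S (P⁻¹ *ᵥ x) (P⁻¹ *ᵥ y) (P⁻¹ *ᵥ x) (P⁻¹ *ᵥ y) =
        ev R (P⁻¹ *ᵥ x) (P⁻¹ *ᵥ y) (P⁻¹ *ᵥ x) (P⁻¹ *ᵥ y) +
        ev (kn h) (P⁻¹ *ᵥ x) (P⁻¹ *ᵥ y) (P⁻¹ *ᵥ x) (P⁻¹ *ᵥ y) +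
        ∑ α, ev (kn (A α)) (P⁻¹ *ᵥ x) (P⁻¹ *ᵥ y) (P⁻¹ *ᵥ x) (P⁻¹ *ᵥ y) := by
      generalize (P⁻¹ *ᵥ x) = u
      generalize (P⁻¹ *ᵥ y) = v
      have e1 : ∑ α, ev (kn (A α)) u v u v =
          ∑ i, ∑ j, ∑ k, ∑ l, (∑ α, kn (A α) i j k l) * u i * v j * u k * v l := by
        unfold ev
        rw [Finset.sum_comm]
        refine Finset.sum_congr rfl fun i _ => ?_
        rw [Finset.sum_comm]
        refine Finset.sum_congr rfl fun j _ => ?_
        rw [Finset.sum_comm]
        refine Finset.sum_congr rfl fun k _ => ?_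
        rw [Finset.sum_comm]
        refine Finset.sum_congr rfl fun l _ => ?_
        rw [Finset.sum_mul, Finset.sum_mul, Finset.sum_mul, Finset.sum_mul]
      rw [e1]
      unfold ev
      simp only [← Finset.sum_add_distrib]
      refine Finset.sum_congr rfl fun i _ => Finset.sum_congr rfl fun j _ =>
        Finset.sum_congr rfl fun k _ => Finset.sum_congr rfl fun l _ => ?_
      simp only [hS]
      ring
    have h3 := hsec (P⁻¹ *ᵥ x) (P⁻¹ *ᵥ y)
    rw [← h2, ← h1] at h3
    have h4 : ev (kn h) (P⁻¹ *ᵥ x) (P⁻¹ *ᵥ y) (P⁻¹ *ᵥ x) (P⁻¹ *ᵥ y) ≤ sq2 x * sq2 y := by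
      rw [ev_kn hhs, hhx, hhx]
      linarith [sq_nonneg (bil h (P⁻¹ *ᵥ x) (P⁻¹ *ᵥ y))]
    have h5 : b ^ 2 * ev (kn h) (P⁻¹ *ᵥ x) (P⁻¹ *ᵥ y) (P⁻¹ *ᵥ x) (P⁻¹ *ᵥ y) ≤
        b ^ 2 * (sq2 x * sq2 y) := mul_le_mul_of_nonneg_left h4 (sq_nonneg b)
    refine le_trans (le_of_eq ?_) (h3.trans h5)
    rw [Fintype.sum_option, Fintype.sum_sum_type]
    simp only [bil_cj, hCB]
    simp [bil]
  set T : Arr (2 * n) := fun i j k l => - R i j k l with hTdef
  have hT : ∀ i j k l, ((T i j k l : ℝ) : ℂ) = ∑ o, (MM e P CA CB o i k * MM e P CA CB o j l -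
      MM e P CA CB o i l * MM e P CA CB o j k) := by
    intro i j k l
    have m0 : ∀ i j, MM e P CA CB none i j = (h i j : ℂ) := by
      intro i j
      simp [MM, he, hCA, hCB, ← hP', cx_apply]
    have m1 : ∀ α i j, MM e P CA CB (some (Sum.inl α)) i j = (A α i j : ℂ) := by
      intro α i j
      simp [MM, he, hCA, hCB, cx_apply]
    have m2 : ∀ β i j, MM e P CA CB (some (Sum.inr β)) i j = Complex.I * (B β i j : ℂ) := by
      intro β i j
      simp [MM, he, hCA, hCB, cx_apply]
    rw [Fintype.sum_option, Fintype.sum_sum_type]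
    simp only [m0, m1, m2]
    have h1 : ∑ β, (Complex.I * (B β i k : ℂ) * (Complex.I * (B β j l : ℂ)) -
        Complex.I * (B β i l : ℂ) * (Complex.I * (B β j k : ℂ))) = - ((S i j k l : ℝ) : ℂ) := by
      rw [← hSB]
      push_cast
      rw [← Finset.sum_neg_distrib]
      refine Finset.sum_congr rfl fun β _ => ?_
      have hI : Complex.I * Complex.I = -1 := Complex.I_mul_I
      calc _ = (Complex.I * Complex.I) * ((B β i k : ℂ) * (B β j l : ℂ) -
            (B β i l : ℂ) * (B β j k : ℂ)) := by ring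
        _ = _ := by rw [hI]; ring
    rw [h1]
    simp only [hS, hTdef, kn]
    push_cast
    ring
  have hfin : (1 / 2) * (4 / 9) ^ n * (2 ^ n * ((2 * n).factorial : ℝ)) * P.det ^ 2 ≤
      gaussBonnet n T := by
    rcases hab with hab | ⟨ha0, hb32⟩
    · set δ : ℝ := (1 / 12 - a - b) / 2 with hδ
      have hδ0 : 0 < δ := by rw [hδ]; linarith
      refine core1 hn e he1 hPd CA CB hCAs hCBs (a := a + δ) (b := b + δ) (by linarith)
        (by linarith) (by rw [hδ]; ring) (VarLe_mono hVA ?_) (VarLe_mono hVB ?_) T hT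
      · exact pow_le_pow_left₀ ha (by linarith) 2
      · exact pow_le_pow_left₀ hb (by linarith) 2
    · have hA0 : ∀ α, A α = 0 := by
        intro α
        refine matrix_eq_zero_of_bil (hA α) fun x => ?_
        have h1 := hAa x
        rw [ha0] at h1
        have h2 : bilin (A α) x x ^ 2 ≤ ∑ α, bilin (A α) x x ^ 2 :=
          Finset.single_le_sum (f := fun α => bilin (A α) x x ^ 2)
            (fun _ _ => sq_nonneg _) (Finset.mem_univ α)
        have h3 : bilin (A α) x x ^ 2 ≤ 0 := by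
          refine h2.trans (h1.trans ?_)
          simp
        have h4 : bilin (A α) x x = 0 := by
          have := le_antisymm h3 (sq_nonneg _)
          exact pow_eq_zero_iff (two_ne_zero) |>.1 this
        exact h4
      have hCA0 : ∀ o, CA o = 0 := by
        intro o
        rcases o with _ | α | β
        · rfl
        · exact hA0 α
        · rfl
      exact core2 hn e he1 hPd CA CB hCA0 hCBs hb32 hVB T hT
  rw [hdet, ← gaussBonnet_neg]
  exact hfin

end Pool.Agent.H69Gauss
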