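import Pool.Agent.Lib.H69.Hopf.Defs

/-!
# Definitions for the dimension-free theorem
-/

open Finset

namespace Pool.Agent.H69Hopf

/-- The value `∑ i j, x i * A i j * y j` of the bilinear form with matrix `A`. -/
def bilin {N : ℕ} (A : Matrix (Fin N) (Fin N) ℝ) (x y : Fin N → ℝ) : ℝ :=
  ∑ i, ∑ j, x i * A i j * y j

/-- Half of the Kulkarni–Nomizu square of a symmetric matrix `A`: the algebraic curvature tensor
with components `A i k * A j l - A i l * A j k`.  For the identity matrix it is the curvature
tensor of constant sectional curvature `1`. -/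
def kn {N : ℕ} (A : Matrix (Fin N) (Fin N) ℝ) : Arr N :=
  fun i j k l => A i k * A j l - A i l * A j k

/-- The quadratic form `∑ R i j k l * X i j * X k l` of the curvature operator of `R`, evaluated
on a square array `X` (a bivector when `X` is skew).  For `R = kn 1` and skew `X` it is
`2 * ∑ i j, X i j ^ 2`. -/
def opForm {N : ℕ} (R : Arr N) (X : Fin N → Fin N → ℝ) : ℝ :=
  ∑ i, ∑ j, ∑ k, ∑ l, R i j k l * X i j * X k l

end Pool.Agent.H69Hopf
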