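import Pool.Agent.Lib.H69.Gauss.Moments

/-!
# High moments of the operator norm of a Gaussian random matrix

`C : ι → Matrix m m ℝ` is a family of matrices such that the variance of the bilinear form
`∑ a, ζ a * (x · C a y)` is at most `e * |x|² * |y|²`.
-/

open MeasureTheory ProbabilityTheory Finset Matrix

namespace Pool.Agent.H69Gauss

variable {ι m : Type*} [Fintype ι] [Fintype m]

/-- The squared Euclidean norm. -/
def sq2 {m : Type*} [Fintype m] (x : m → ℝ) : ℝ := ∑ i, x i ^ 2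

theorem sq2_nonneg (x : m → ℝ) : 0 ≤ sq2 x := Finset.sum_nonneg fun _ _ => sq_nonneg _

/-- The bilinear form of a matrix. -/
def bil (A : Matrix m m ℝ) (x y : m → ℝ) : ℝ := ∑ i, ∑ j, x i * A i j * y j

/-- The random matrix. -/
def rmat (C : ι → Matrix m m ℝ) (z : ι → ℝ) : Matrix m m ℝ := ∑ a, z a • C a

theorem bil_rmat (C : ι → Matrix m m ℝ) (z : ι → ℝ) (x y : m → ℝ) :
    bil (rmat C z) x y = ∑ a, bil (C a) x y * z a := by
  unfold bil rmat
  simp only [Matrix.sum_apply, Matrix.smul_apply, smul_eq_mul]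
  have h1 : ∀ i j, x i * (∑ a, z a * C a i j) * y j = ∑ a, x i * C a i j * y j * z a := by
    intro i j
    rw [Finset.mul_sum, Finset.sum_mul]
    refine Finset.sum_congr rfl fun a _ => ?_
    ring
  simp only [h1]
  have h2 : ∀ i, (∑ j, ∑ a, x i * C a i j * y j * z a) = ∑ a, ∑ j, x i * C a i j * y j * z a :=
    fun i => Finset.sum_comm
  simp only [h2]
  rw [Finset.sum_comm]
  refine Finset.sum_congr rfl fun a _ => ?_
  rw [Finset.sum_mul]
  refine Finset.sum_congr rfl fun i _ => ?_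
  rw [Finset.sum_mul]

theorem bil_eq_left (A : Matrix m m ℝ) (x y : m → ℝ) : bil A x y = ∑ i, (A *ᵥ y) i * x i := by
  unfold bil
  refine Finset.sum_congr rfl fun i _ => ?_
  rw [Matrix.mulVec, dotProduct, Finset.sum_mul]
  refine Finset.sum_congr rfl fun j _ => ?_
  ring

theorem bil_eq_right (A : Matrix m m ℝ) (x y : m → ℝ) : bil A x y = ∑ j, (Aᵀ *ᵥ x) j * y j := by
  unfold bil
  rw [Finset.sum_comm]
  refine Finset.sum_congr rfl fun j _ => ?_
  rw [Matrix.mulVec, dotProduct, Finset.sum_mul]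
  refine Finset.sum_congr rfl fun i _ => ?_
  rw [Matrix.transpose_apply]
  ring

/-- Hypothesis on the variance. -/
def VarLe (C : ι → Matrix m m ℝ) (e : ℝ) : Prop :=
  ∀ x y : m → ℝ, ∑ a, bil (C a) x y ^ 2 ≤ e * (sq2 x * sq2 y)

theorem bil_rmat_pow_le {C : ι → Matrix m m ℝ} {e : ℝ} (h : VarLe C e) (n : ℕ)
    (z : ι → ℝ) (x y : m → ℝ) :
    bil (rmat C z) x y ^ (2 * n) ≤ e ^ n * (sq2 z ^ n * (sq2 x ^ n * sq2 y ^ n)) := by
  have h1 : bil (rmat C z) x y ^ 2 ≤ e * (sq2 z * (sq2 x * sq2 y)) := by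
    rw [bil_rmat]
    calc (∑ a, bil (C a) x y * z a) ^ 2 ≤ (∑ a, bil (C a) x y ^ 2) * (∑ a, z a ^ 2) :=
          Finset.sum_mul_sq_le_sq_mul_sq _ _ _
      _ ≤ (e * (sq2 x * sq2 y)) * sq2 z :=
          mul_le_mul_of_nonneg_right (h x y) (sq2_nonneg z)
      _ = _ := by ring
  calc bil (rmat C z) x y ^ (2 * n) = (bil (rmat C z) x y ^ 2) ^ n := by rw [pow_mul]
    _ ≤ (e * (sq2 z * (sq2 x * sq2 y))) ^ n := pow_le_pow_left₀ (sq_nonneg _) h1 n
    _ = _ := by simp only [mul_pow]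

theorem continuous_bil_rmat (C : ι → Matrix m m ℝ) :
    Continuous (fun w : (ι → ℝ) × ((m → ℝ) × (m → ℝ)) => bil (rmat C w.1) w.2.1 w.2.2) := by
  unfold bil rmat
  simp only [Matrix.sum_apply, Matrix.smul_apply, smul_eq_mul]
  fun_prop

theorem integrable_G {C : ι → Matrix m m ℝ} {e : ℝ} (h : VarLe C e) (n : ℕ) :
    Integrable (fun w : (ι → ℝ) × ((m → ℝ) × (m → ℝ)) => bil (rmat C w.1) w.2.1 w.2.2 ^ (2 * n))
      ((gam ι).prod ((gam m).prod (gam m))) := by
  have hB : Integrable (fun w : (ι → ℝ) × ((m → ℝ) × (m → ℝ)) =>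
      e ^ n * (sq2 w.1 ^ n * (sq2 w.2.1 ^ n * sq2 w.2.2 ^ n)))
      ((gam ι).prod ((gam m).prod (gam m))) := by
    refine Integrable.const_mul ?_ _
    exact Integrable.mul_prod (f := fun z : ι → ℝ => sq2 z ^ n)
      (g := fun w : (m → ℝ) × (m → ℝ) => sq2 w.1 ^ n * sq2 w.2 ^ n)
      (integrable_nsq_pow n) (Integrable.mul_prod (f := fun x : m → ℝ => sq2 x ^ n)
        (g := fun x : m → ℝ => sq2 x ^ n) (integrable_nsq_pow n) (integrable_nsq_pow n))
  refine hB.mono' ?_ ?_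
  · exact ((continuous_bil_rmat C).pow (2 * n)).aestronglyMeasurable
  · refine Filter.Eventually.of_forall fun w => ?_
    rw [Real.norm_eq_abs, abs_of_nonneg (by rw [pow_mul]; positivity)]
    exact bil_rmat_pow_le h n _ _ _

theorem integrable_G2 {C : ι → Matrix m m ℝ} {e : ℝ} (h : VarLe C e) (n : ℕ) (z : ι → ℝ) :
    Integrable (fun w : (m → ℝ) × (m → ℝ) => bil (rmat C z) w.1 w.2 ^ (2 * n))
      ((gam m).prod (gam m)) := by
  have hB : Integrable (fun w : (m → ℝ) × (m → ℝ) =>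
      e ^ n * (sq2 z ^ n * (sq2 w.1 ^ n * sq2 w.2 ^ n)))
      ((gam m).prod (gam m)) := by
    refine Integrable.const_mul (Integrable.const_mul ?_ _) _
    exact Integrable.mul_prod (f := fun x : m → ℝ => sq2 x ^ n)
        (g := fun x : m → ℝ => sq2 x ^ n) (integrable_nsq_pow n) (integrable_nsq_pow n)
  refine hB.mono' ?_ ?_
  · refine Continuous.aestronglyMeasurable (Continuous.pow ?_ _)
    exact (continuous_bil_rmat C).comp (continuous_const.prodMk continuous_id)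
  · refine Filter.Eventually.of_forall fun w => ?_
    rw [Real.norm_eq_abs, abs_of_nonneg (by rw [pow_mul]; positivity)]
    exact bil_rmat_pow_le h n _ _ _

/-- Upper bound for the `2 n`-th power of the operator norm. -/
noncomputable def Phi (C : ι → Matrix m m ℝ) (n : ℕ) (z : ι → ℝ) : ℝ :=
  (dff n)⁻¹ ^ 2 * ∫ w : (m → ℝ) × (m → ℝ), bil (rmat C z) w.1 w.2 ^ (2 * n)
    ∂((gam m).prod (gam m))

theorem Phi_nonneg (C : ι → Matrix m m ℝ) (n : ℕ) (z : ι → ℝ) : 0 ≤ Phi C n z := by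
  unfold Phi
  refine mul_nonneg (sq_nonneg _) (integral_nonneg fun w => ?_)
  simp only [Pi.zero_apply]
  rw [pow_mul]
  positivity

theorem norm_le_Phi {C : ι → Matrix m m ℝ} {e : ℝ} (h : VarLe C e) (n : ℕ) (z : ι → ℝ)
    (v : m → ℝ) : sq2 ((rmat C z)ᵀ *ᵥ v) ^ n ≤ Phi C n z * sq2 v ^ n := by
  have hd := dff_pos n
  -- the inner integral
  have h1 : ∫ w : (m → ℝ) × (m → ℝ), bil (rmat C z) w.1 w.2 ^ (2 * n) ∂((gam m).prod (gam m)) =
      dff n * ∫ y, sq2 (rmat C z *ᵥ y) ^ n ∂(gam m) := by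
    rw [integral_prod_symm _ (integrable_G2 h n z), ← integral_const_mul]
    congr 1
    funext y
    have := int_lin_pow (rmat C z *ᵥ y) n
    rw [sq2, ← this]
    congr 1
    funext x
    rw [bil_eq_left]
  have hint : Integrable (fun y => sq2 (rmat C z *ᵥ y) ^ n) (gam m) := by
    have h2 := (integrable_G2 h n z).integral_prod_right
    have h3 : (fun y => ∫ x, bil (rmat C z) x y ^ (2 * n) ∂(gam m)) =
        fun y => dff n * sq2 (rmat C z *ᵥ y) ^ n := by
      funext y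
      have := int_lin_pow (rmat C z *ᵥ y) n
      rw [sq2, ← this]
      congr 1
      funext x
      rw [bil_eq_left]
    rw [h3] at h2
    have h4 := h2.const_mul (dff n)⁻¹
    refine h4.congr (Filter.Eventually.of_forall fun y => ?_)
    field_simp
  have h2 : dff n * sq2 ((rmat C z)ᵀ *ᵥ v) ^ n ≤
      sq2 v ^ n * ∫ y, sq2 (rmat C z *ᵥ y) ^ n ∂(gam m) := by
    have h3 := int_lin_pow ((rmat C z)ᵀ *ᵥ v) n
    rw [sq2, ← h3, ← integral_const_mul]
    refine integral_mono (integrable_lin_pow _ _) (hint.const_mul _) fun y => ?_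
    simp only
    rw [← bil_eq_right, bil_eq_left, pow_mul, ← mul_pow]
    refine pow_le_pow_left₀ (sq_nonneg _) ?_ n
    rw [mul_comm]
    exact Finset.sum_mul_sq_le_sq_mul_sq _ _ _
  have h5 : sq2 ((rmat C z)ᵀ *ᵥ v) ^ n ≤
      (dff n)⁻¹ * (sq2 v ^ n * ∫ y, sq2 (rmat C z *ᵥ y) ^ n ∂(gam m)) := by
    rw [le_inv_mul_iff₀ hd]
    exact h2
  refine h5.trans (le_of_eq ?_)
  unfold Phi
  rw [h1]
  field_simp

theorem integrable_Phi {C : ι → Matrix m m ℝ} {e : ℝ} (h : VarLe C e) (n : ℕ) :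
    Integrable (Phi C n) (gam ι) := by
  unfold Phi
  exact ((integrable_G h n).integral_prod_left).const_mul _

theorem int_Phi {C : ι → Matrix m m ℝ} {e : ℝ} (h : VarLe C e) (n : ℕ) (hn : 1 ≤ n)
    (hc : Fintype.card m = 2 * n) :
    ∫ z, Phi C n z ∂(gam ι) ≤ e ^ n * (16 ^ n / 4) * dff n := by
  have hd := dff_pos n
  have h1 : ∫ z, Phi C n z ∂(gam ι) = (dff n)⁻¹ ^ 2 *
      ∫ w : (m → ℝ) × (m → ℝ), (∫ z, bil (rmat C z) w.1 w.2 ^ (2 * n) ∂(gam ι))
        ∂((gam m).prod (gam m)) := by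
    unfold Phi
    rw [integral_const_mul]
    congr 1
    exact integral_integral_swap (f := fun (z : ι → ℝ) (w : (m → ℝ) × (m → ℝ)) =>
      bil (rmat C z) w.1 w.2 ^ (2 * n)) (integrable_G h n)
  have h2 : ∀ w : (m → ℝ) × (m → ℝ), (∫ z, bil (rmat C z) w.1 w.2 ^ (2 * n) ∂(gam ι)) =
      dff n * (∑ a, bil (C a) w.1 w.2 ^ 2) ^ n := by
    intro w
    rw [← int_lin_pow]
    congr 1
    funext z
    rw [bil_rmat]
  have h3 : ∫ w : (m → ℝ) × (m → ℝ), (∫ z, bil (rmat C z) w.1 w.2 ^ (2 * n) ∂(gam ι))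
        ∂((gam m).prod (gam m)) ≤
      ∫ w : (m → ℝ) × (m → ℝ), (dff n * e ^ n) * (sq2 w.1 ^ n * sq2 w.2 ^ n)
        ∂((gam m).prod (gam m)) := by
    refine integral_mono (integrable_G h n).integral_prod_right ?_ fun w => ?_
    · refine Integrable.const_mul ?_ _
      exact Integrable.mul_prod (f := fun x : m → ℝ => sq2 x ^ n)
        (g := fun x : m → ℝ => sq2 x ^ n) (integrable_nsq_pow n) (integrable_nsq_pow n)
    · simp only
      rw [h2, mul_assoc]
      refine mul_le_mul_of_nonneg_left ?_ hd.le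
      rw [← mul_pow, ← mul_pow]
      exact pow_le_pow_left₀ (Finset.sum_nonneg fun a _ => sq_nonneg _) (h w.1 w.2) n
  have h4 : ∫ w : (m → ℝ) × (m → ℝ), (dff n * e ^ n) * (sq2 w.1 ^ n * sq2 w.2 ^ n)
        ∂((gam m).prod (gam m)) = (dff n * e ^ n) * ((4 ^ n / 2 * dff n) * (4 ^ n / 2 * dff n)) := by
    rw [integral_const_mul, integral_prod_mul (fun x : m → ℝ => sq2 x ^ n)
      (fun x : m → ℝ => sq2 x ^ n)]
    have := int_nsq_pow (ι := m) n hn hc
    unfold sq2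
    rw [this]
  rw [h1]
  calc _ ≤ (dff n)⁻¹ ^ 2 * ((dff n * e ^ n) * ((4 ^ n / 2 * dff n) * (4 ^ n / 2 * dff n))) := by
        rw [← h4]
        exact mul_le_mul_of_nonneg_left h3 (sq_nonneg _)
    _ = e ^ n * ((4 * 4) ^ n / 4) * dff n := by
        rw [mul_pow]
        field_simp
        ring
    _ = _ := by norm_num

end Pool.Agent.H69Gauss
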