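import Pool.Agent.Lib.H69.Gauss.NormMoment

/-!
# Pointwise lower bounds for determinants
-/

open Finset Matrix
open scoped MatrixOrder

namespace Pool.Agent.H69Gauss

/-! ### Products of real numbers -/

theorem prod_ge_pow {N : ℕ} (ξ m : ℝ) (hξ : m ≤ ξ) (l : Fin N → ℝ) (hl : ∀ i, |l i| ≤ m) :
    (ξ - m) ^ N ≤ ∏ i, (ξ + l i) := by
  have h : ∏ _i : Fin N, (ξ - m) ≤ ∏ i, (ξ + l i) := by
    refine Finset.prod_le_prod (fun i _ => by linarith) fun i _ => ?_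
    have := (abs_le.1 (hl i)).1
    linarith
  simpa using h

theorem prod_ge_pow_abs {n : ℕ} (ξ m : ℝ) (hξ : m ≤ |ξ|) (l : Fin (2 * n) → ℝ)
    (hl : ∀ i, |l i| ≤ m) : (|ξ| - m) ^ (2 * n) ≤ ∏ i, (ξ + l i) := by
  rcases abs_cases ξ with ⟨h, _⟩ | ⟨h, _⟩
  · rw [h] at hξ ⊢
    exact prod_ge_pow ξ m hξ l hl
  · rw [h] at hξ ⊢
    have h1 := prod_ge_pow (-ξ) m hξ (fun i => - l i) (fun i => by rw [abs_neg]; exact hl i)
    refine h1.trans (le_of_eq ?_)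
    have h2 : ∀ i, -ξ + -l i = (-1) * (ξ + l i) := by intro i; ring
    simp only [h2, Finset.prod_mul_distrib, Finset.prod_const, Finset.card_univ, Fintype.card_fin]
    rw [pow_mul]
    norm_num

theorem abs_prod_le {N : ℕ} (M : ℝ) (l : Fin N → ℝ) (hl : ∀ i, |l i| ≤ M) :
    |∏ i, l i| ≤ M ^ N := by
  rw [Finset.abs_prod]
  have h : ∏ i, |l i| ≤ ∏ _i : Fin N, M :=
    Finset.prod_le_prod (fun i _ => abs_nonneg _) fun i _ => hl i
  simpa using h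

theorem prod_lower1 {n : ℕ} (ξ m : ℝ) (hm : 0 ≤ m) (l : Fin (2 * n) → ℝ) (hl : ∀ i, |l i| ≤ m) :
    (4 / 9) ^ n * ξ ^ (2 * n) - (4 ^ n + (4 / 9) ^ n) * m ^ (2 * n) ≤ ∏ i, (ξ + l i) := by
  have hx : ξ ^ (2 * n) = |ξ| ^ (2 * n) := by rw [pow_mul, pow_mul, sq_abs]
  have hm2 : 0 ≤ m ^ (2 * n) := pow_nonneg hm _
  have h49 : (0:ℝ) ≤ (4 / 9) ^ n := by positivity
  rw [hx]
  by_cases h1 : m ≤ |ξ|
  · have h2 := prod_ge_pow_abs ξ m h1 l hl
    by_cases h3 : 3 * m ≤ |ξ|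
    · have h4 : ((2 / 3) * |ξ|) ^ (2 * n) ≤ (|ξ| - m) ^ (2 * n) :=
        pow_le_pow_left₀ (by positivity) (by linarith) _
      have h5 : ((2 / 3 : ℝ) * |ξ|) ^ (2 * n) = (4 / 9) ^ n * |ξ| ^ (2 * n) := by
        rw [mul_pow, pow_mul (2 / 3 : ℝ)]
        norm_num
      have h6 : 0 ≤ (4 ^ n + (4 / 9 : ℝ) ^ n) * m ^ (2 * n) := by positivity
      linarith
    · push Not at h3
      have h4 : |ξ| ^ (2 * n) ≤ (3 * m) ^ (2 * n) :=
        pow_le_pow_left₀ (abs_nonneg _) h3.le _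
      have h5 : (4 / 9 : ℝ) ^ n * (3 * m) ^ (2 * n) = 4 ^ n * m ^ (2 * n) := by
        rw [mul_pow, pow_mul (3 : ℝ), ← mul_assoc, ← mul_pow]
        norm_num
      have h6 := mul_le_mul_of_nonneg_left h4 h49
      have h7 : 0 ≤ (|ξ| - m) ^ (2 * n) := pow_nonneg (by linarith) _
      have h8 : 0 ≤ (4 / 9 : ℝ) ^ n * m ^ (2 * n) := by positivity
      nlinarith
  · push Not at h1
    have h2 : |∏ i, (ξ + l i)| ≤ (2 * m) ^ (2 * n) := by
      refine abs_prod_le _ _ fun i => ?_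
      calc |ξ + l i| ≤ |ξ| + |l i| := abs_add_le _ _
        _ ≤ m + m := add_le_add h1.le (hl i)
        _ = 2 * m := by ring
    have h3 : (2 * m) ^ (2 * n) = 4 ^ n * m ^ (2 * n) := by
      rw [mul_pow, pow_mul (2 : ℝ)]
      norm_num
    have h4 : |ξ| ^ (2 * n) ≤ m ^ (2 * n) := pow_le_pow_left₀ (abs_nonneg _) h1.le _
    have h5 := mul_le_mul_of_nonneg_left h4 h49
    have h6 := (abs_le.1 h2).1
    rw [h3] at h6
    nlinarith

theorem prod_lower2 {n : ℕ} (ξ m : ℝ) (hm : 0 ≤ m) (l : Fin (2 * n) → ℝ) (hl : ∀ i, |l i| ≤ m)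
    (hs : ∏ i, (ξ + l i) = ∏ i, (ξ - l i)) :
    (1 / 2) ^ n * ξ ^ (2 * n) - (1 + (1 / 2) ^ n) * m ^ (2 * n) ≤ ∏ i, (ξ + l i) := by
  have hx : ξ ^ (2 * n) = |ξ| ^ (2 * n) := by rw [pow_mul, pow_mul, sq_abs]
  have hm2 : 0 ≤ m ^ (2 * n) := pow_nonneg hm _
  have h12 : (0:ℝ) ≤ (1 / 2) ^ n := by positivity
  set D := ∏ i, (ξ + l i) with hD
  have hD2 : D ^ 2 = ∏ i, (ξ ^ 2 - l i ^ 2) := by
    have h0 : D ^ 2 = (∏ i, (ξ + l i)) * ∏ i, (ξ - l i) := by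
      rw [← hs, sq]
    rw [h0, ← Finset.prod_mul_distrib]
    refine Finset.prod_congr rfl fun i _ => ?_
    ring
  have hl2 : ∀ i, l i ^ 2 ≤ m ^ 2 := fun i => by
    rw [← sq_abs (l i)]
    exact pow_le_pow_left₀ (abs_nonneg _) (hl i) 2
  by_cases h1 : m ≤ |ξ|
  · have h2 := prod_ge_pow_abs ξ m h1 l hl
    have h3 : 0 ≤ D := le_trans (pow_nonneg (by linarith) _) h2
    have hmx : m ^ 2 ≤ ξ ^ 2 := by
      rw [← sq_abs ξ]
      exact pow_le_pow_left₀ hm h1 2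
    have h4 : (ξ ^ 2 - m ^ 2) ^ n ≤ D := by
      have h5 : ((ξ ^ 2 - m ^ 2) ^ n) ^ 2 ≤ D ^ 2 := by
        rw [hD2, ← pow_mul]
        have h6 : ∏ _i : Fin (2 * n), (ξ ^ 2 - m ^ 2) ≤ ∏ i, (ξ ^ 2 - l i ^ 2) :=
          Finset.prod_le_prod (fun i _ => by linarith) fun i _ => by linarith [hl2 i]
        simp only [Finset.prod_const, Finset.card_univ, Fintype.card_fin] at h6
        rw [mul_comm n 2]
        exact h6
      exact le_of_sq_le_sq h5 h3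
    by_cases h5 : 2 * m ^ 2 ≤ ξ ^ 2
    · have h6 : ((1 / 2) * ξ ^ 2) ^ n ≤ (ξ ^ 2 - m ^ 2) ^ n :=
        pow_le_pow_left₀ (by positivity) (by linarith) _
      rw [mul_pow, ← pow_mul] at h6
      have h7 : 0 ≤ (1 + (1 / 2 : ℝ) ^ n) * m ^ (2 * n) := by positivity
      linarith
    · push Not at h5
      have h6 : (ξ ^ 2) ^ n ≤ (2 * m ^ 2) ^ n := pow_le_pow_left₀ (sq_nonneg _) h5.le _
      rw [← pow_mul, mul_pow, ← pow_mul] at h6
      have h7 := mul_le_mul_of_nonneg_left h6 h12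
      have h8 : (1 / 2 : ℝ) ^ n * (2 ^ n * m ^ (2 * n)) = m ^ (2 * n) := by
        rw [← mul_assoc, ← mul_pow]
        norm_num
      rw [h8] at h7
      have h9 : 0 ≤ (1 / 2 : ℝ) ^ n * m ^ (2 * n) := by positivity
      nlinarith
  · push Not at h1
    have hxm : ξ ^ 2 ≤ m ^ 2 := by
      rw [← sq_abs ξ]
      exact pow_le_pow_left₀ (abs_nonneg _) h1.le 2
    have h2 : D ^ 2 ≤ (m ^ (2 * n)) ^ 2 := by
      rw [hD2, ← pow_mul, mul_comm (2 * n) 2, pow_mul]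
      refine le_trans (le_abs_self _) (abs_prod_le _ _ fun i => ?_)
      rw [abs_le]
      constructor
      · linarith [hl2 i, sq_nonneg ξ]
      · linarith [sq_nonneg (l i)]
    have h3 : -(m ^ (2 * n)) ≤ D := by
      have := abs_le_of_sq_le_sq h2 hm2
      exact (abs_le.1 this).1
    have h4 : |ξ| ^ (2 * n) ≤ m ^ (2 * n) := pow_le_pow_left₀ (abs_nonneg _) h1.le _
    have h5 := mul_le_mul_of_nonneg_left h4 h12
    rw [hx]
    nlinarith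

end Pool.Agent.H69Gauss
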