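import Pool.Agent.Lib.H69.Gauss.Final2

/-!
# The reference tensor for a multiple of the identity matrix
-/

open Finset Matrix
open Pool.Agent.H69Hopf

namespace Pool.Agent.H69Gauss

theorem bilin_smul_one {N : ℕ} (r : ℝ) (x y : Fin N → ℝ) :
    bilin (r • (1 : Matrix (Fin N) (Fin N) ℝ)) x y = r * ∑ i, x i * y i := by
  unfold bilin
  rw [Finset.mul_sum]
  refine Finset.sum_congr rfl fun i _ => ?_
  rw [Finset.sum_eq_single i]
  · simp
    ring
  · intro j _ hj
    simp [Ne.symm hj]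
  · simp

theorem ev_kn_smul_one {N : ℕ} (r : ℝ) (x y : Fin N → ℝ) :
    ev (kn (r • (1 : Matrix (Fin N) (Fin N) ℝ))) x y x y = r ^ 2 * area2 x y := by
  have hs : (r • (1 : Matrix (Fin N) (Fin N) ℝ)).transpose = r • (1 : Matrix (Fin N) (Fin N) ℝ) := by
    simp
  rw [ev_kn hs, ← bilin_eq_bil, ← bilin_eq_bil, ← bilin_eq_bil, bilin_smul_one, bilin_smul_one,
    bilin_smul_one]
  unfold area2
  have e1 : ∀ z : Fin N → ℝ, ∑ i, z i * z i = ∑ i, z i ^ 2 := fun z =>
    Finset.sum_congr rfl fun i _ => (sq _).symm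
  rw [e1, e1]
  ring

theorem opForm_kn_smul_one {N : ℕ} (r : ℝ) (X : Fin N → Fin N → ℝ) (hX : ∀ i j, X i j = - X j i) :
    opForm (kn (r • (1 : Matrix (Fin N) (Fin N) ℝ))) X = r ^ 2 * (2 * ∑ i, ∑ j, X i j ^ 2) := by
  have hkn : kn (r • (1 : Matrix (Fin N) (Fin N) ℝ)) =
      fun i j l m => r ^ 2 * (kn (1 : Matrix (Fin N) (Fin N) ℝ) i j l m) := by
    funext i j l m
    simp only [kn, Matrix.smul_apply, smul_eq_mul]
    ring
  rw [hkn]
  unfold opForm kn
  have e1 : ∀ i j, (∑ l, ∑ m, r ^ 2 * ((1 : Matrix (Fin N) (Fin N) ℝ) i l *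
      (1 : Matrix (Fin N) (Fin N) ℝ) j m - (1 : Matrix (Fin N) (Fin N) ℝ) i m *
      (1 : Matrix (Fin N) (Fin N) ℝ) j l) * X i j * X l m) = r ^ 2 * (2 * X i j ^ 2) := by
    intro i j
    have e2 : (∑ l, ∑ m, r ^ 2 * ((1 : Matrix (Fin N) (Fin N) ℝ) i l *
        (1 : Matrix (Fin N) (Fin N) ℝ) j m - (1 : Matrix (Fin N) (Fin N) ℝ) i m *
        (1 : Matrix (Fin N) (Fin N) ℝ) j l) * X i j * X l m) =
        r ^ 2 * X i j * ((∑ l, ∑ m, (1 : Matrix (Fin N) (Fin N) ℝ) i l *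
        (1 : Matrix (Fin N) (Fin N) ℝ) j m * X l m) -
        ∑ l, ∑ m, (1 : Matrix (Fin N) (Fin N) ℝ) i m *
        (1 : Matrix (Fin N) (Fin N) ℝ) j l * X l m) := by
      rw [← Finset.sum_sub_distrib, Finset.mul_sum]
      refine Finset.sum_congr rfl fun l _ => ?_
      rw [← Finset.sum_sub_distrib, Finset.mul_sum]
      refine Finset.sum_congr rfl fun m _ => ?_
      ring
    have e3 : (∑ l, ∑ m, (1 : Matrix (Fin N) (Fin N) ℝ) i l *
        (1 : Matrix (Fin N) (Fin N) ℝ) j m * X l m) = X i j := by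
      rw [Finset.sum_eq_single i, Finset.sum_eq_single j]
      · simp
      · intro m _ hm
        simp [Ne.symm hm]
      · simp
      · intro l _ hl
        simp [Ne.symm hl]
      · simp
    have e4 : (∑ l, ∑ m, (1 : Matrix (Fin N) (Fin N) ℝ) i m *
        (1 : Matrix (Fin N) (Fin N) ℝ) j l * X l m) = X j i := by
      rw [Finset.sum_eq_single j, Finset.sum_eq_single i]
      · simp
      · intro m _ hm
        simp [Ne.symm hm]
      · simp
      · intro l _ hl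
        simp [Ne.symm hl]
      · simp
    rw [e2, e3, e4, hX j i]
    ring
  simp only [e1, ← Finset.mul_sum]

end Pool.Agent.H69Gauss
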