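import Pool.Agent.Lib.H69.Gauss.Pointwise

/-!
# Spectral estimates
-/

open Finset Matrix
open scoped MatrixOrder

namespace Pool.Agent.H69Gauss

/-- Complexification of a real matrix. -/
noncomputable def cx {N : ℕ} : Matrix (Fin N) (Fin N) ℝ →+* Matrix (Fin N) (Fin N) ℂ :=
  Complex.ofRealHom.mapMatrix

theorem cx_apply {N : ℕ} (A : Matrix (Fin N) (Fin N) ℝ) (i j : Fin N) :
    cx A i j = (A i j : ℂ) := rfl

theorem cx_det {N : ℕ} (A : Matrix (Fin N) (Fin N) ℝ) : (cx A).det = ((A.det : ℝ) : ℂ) := by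
  unfold cx
  rw [← RingHom.map_det]
  rfl

theorem cx_smul {N : ℕ} (r : ℝ) (A : Matrix (Fin N) (Fin N) ℝ) :
    cx (r • A) = (r : ℂ) • cx A := by
  ext i j
  simp [cx_apply]

theorem det_shift {n : ℕ} {H : Matrix (Fin (2 * n)) (Fin (2 * n)) ℂ} (hH : H.IsHermitian)
    (ξ : ℝ) : ((ξ : ℂ) • (1 : Matrix (Fin (2 * n)) (Fin (2 * n)) ℂ) + H).det =
      ((∏ i, (ξ + hH.eigenvalues i) : ℝ) : ℂ) := by
  have h1 := Matrix.eval_charpoly H (-(ξ : ℂ))
  rw [hH.charpoly_eq, Polynomial.eval_prod] at h1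
  have h2 : Matrix.scalar (Fin (2 * n)) (-(ξ : ℂ)) - H =
      -((ξ : ℂ) • (1 : Matrix (Fin (2 * n)) (Fin (2 * n)) ℂ) + H) := by
    rw [neg_add, ← sub_eq_add_neg, Matrix.smul_one_eq_diagonal, Matrix.scalar_apply,
      ← Matrix.diagonal_neg]
  rw [h2, Matrix.det_neg] at h1
  have h3 : ((-1 : ℂ)) ^ Fintype.card (Fin (2 * n)) = 1 := by
    rw [Fintype.card_fin, pow_mul]
    norm_num
  rw [h3, one_mul] at h1
  rw [← h1]
  have h4 : ∀ i, Polynomial.eval (-(ξ : ℂ)) (Polynomial.X - Polynomial.C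
      ((hH.eigenvalues i : ℝ) : ℂ)) = (-1) * ((ξ : ℂ) + (hH.eigenvalues i : ℂ)) := by
    intro i
    simp
    ring
  have h5 : ∏ i, Polynomial.eval (-(ξ : ℂ)) (Polynomial.X - Polynomial.C
      ((hH.eigenvalues i : ℝ) : ℂ)) = ∏ i, ((-1) * ((ξ : ℂ) + (hH.eigenvalues i : ℂ))) :=
    Finset.prod_congr rfl fun i _ => h4 i
  refine Eq.trans h5 ?_
  rw [Finset.prod_mul_distrib, Finset.prod_const, Finset.card_univ, h3, one_mul]
  push_cast
  rfl

theorem sq2_real_le {N : ℕ} (x y : Fin N → ℝ) : (∑ i, x i * y i) ^ 2 ≤ sq2 x * sq2 y :=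
  Finset.sum_mul_sq_le_sq_mul_sq _ _ _

/-- Bound for the eigenvalues of `A + i B`. -/
theorem eigenvalue_bound {N : ℕ} {A B : Matrix (Fin N) (Fin N) ℝ}
    (hH : (cx A + Complex.I • cx B).IsHermitian) {α β : ℝ} (hα : 0 ≤ α) (hβ : 0 ≤ β)
    (hA : ∀ x, sq2 (A *ᵥ x) ≤ α ^ 2 * sq2 x) (hB : ∀ x, sq2 (B *ᵥ x) ≤ β ^ 2 * sq2 x)
    (j : Fin N) : |hH.eigenvalues j| ≤ α + β := by
  set l := hH.eigenvalues j with hl
  set w : Fin N → ℂ := ⇑(hH.eigenvectorBasis j) with hw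
  have hev : (cx A + Complex.I • cx B) *ᵥ w = (l : ℝ) • w := hH.mulVec_eigenvectorBasis j
  set u : Fin N → ℝ := fun i => (w i).re with hu
  set v : Fin N → ℝ := fun i => (w i).im with hv
  have h1 : ∀ i, (A *ᵥ u) i - (B *ᵥ v) i = l * u i := by
    intro i
    have := congrArg Complex.re (congrFun hev i)
    simp only [Matrix.mulVec, dotProduct, Matrix.add_apply, Matrix.smul_apply, cx_apply,
      Pi.smul_apply, Complex.real_smul, smul_eq_mul] at this
    rw [Complex.re_sum] at this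
    simp only [Complex.mul_re, Complex.add_re, Complex.ofReal_re, Complex.I_re, Complex.I_im,
      Complex.ofReal_im, Complex.add_im, Complex.mul_im] at this
    simp only [Matrix.mulVec, dotProduct, hu, hv]
    rw [← Finset.sum_sub_distrib]
    convert this using 1
    · refine Finset.sum_congr rfl fun k _ => ?_
      ring
    · ring
  have h2 : ∀ i, (A *ᵥ v) i + (B *ᵥ u) i = l * v i := by
    intro i
    have := congrArg Complex.im (congrFun hev i)
    simp only [Matrix.mulVec, dotProduct, Matrix.add_apply, Matrix.smul_apply, cx_apply,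
      Pi.smul_apply, Complex.real_smul, smul_eq_mul] at this
    rw [Complex.im_sum] at this
    simp only [Complex.mul_re, Complex.add_re, Complex.ofReal_re, Complex.I_re, Complex.I_im,
      Complex.ofReal_im, Complex.add_im, Complex.mul_im] at this
    simp only [Matrix.mulVec, dotProduct, hu, hv]
    rw [← Finset.sum_add_distrib]
    convert this using 1
    · refine Finset.sum_congr rfl fun k _ => ?_
      ring
    · ring
  have hnorm : sq2 u + sq2 v = 1 := by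
    have h3 : ‖hH.eigenvectorBasis j‖ = 1 := hH.eigenvectorBasis.norm_eq_one j
    have h4 := EuclideanSpace.norm_sq_eq (hH.eigenvectorBasis j)
    rw [h3] at h4
    unfold sq2
    rw [← Finset.sum_add_distrib]
    have h5 : ∀ i, u i ^ 2 + v i ^ 2 = ‖(hH.eigenvectorBasis j) i‖ ^ 2 := by
      intro i
      rw [Complex.sq_norm, Complex.normSq_apply]
      simp only [hu, hv, hw]
      ring
    rw [Finset.sum_congr rfl (fun i _ => h5 i), ← h4]
    norm_num
  have hsum : l ^ 2 = ∑ i, ((A *ᵥ u) i - (B *ᵥ v) i) ^ 2 + ∑ i, ((A *ᵥ v) i + (B *ᵥ u) i) ^ 2 := by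
    simp only [h1, h2]
    have e1 : ∑ i, (l * u i) ^ 2 = l ^ 2 * sq2 u := by
      unfold sq2
      rw [Finset.mul_sum]
      exact Finset.sum_congr rfl fun i _ => by ring
    have e2 : ∑ i, (l * v i) ^ 2 = l ^ 2 * sq2 v := by
      unfold sq2
      rw [Finset.mul_sum]
      exact Finset.sum_congr rfl fun i _ => by ring
    rw [e1, e2, ← mul_add, hnorm, mul_one]
  have e3 : ∑ i, ((A *ᵥ u) i - (B *ᵥ v) i) ^ 2 = sq2 (A *ᵥ u) + sq2 (B *ᵥ v) -
      2 * ∑ i, (A *ᵥ u) i * (B *ᵥ v) i := by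
    unfold sq2
    rw [Finset.mul_sum, ← Finset.sum_add_distrib, ← Finset.sum_sub_distrib]
    exact Finset.sum_congr rfl fun i _ => by ring
  have e4 : ∑ i, ((A *ᵥ v) i + (B *ᵥ u) i) ^ 2 = sq2 (A *ᵥ v) + sq2 (B *ᵥ u) +
      2 * ∑ i, (A *ᵥ v) i * (B *ᵥ u) i := by
    unfold sq2
    rw [Finset.mul_sum, ← Finset.sum_add_distrib, ← Finset.sum_add_distrib]
    exact Finset.sum_congr rfl fun i _ => by ring
  have hcs : ∀ x y : Fin N → ℝ, |∑ i, (A *ᵥ x) i * (B *ᵥ y) i| ≤ α * β * (√(sq2 x) * √(sq2 y)) := by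
    intro x y
    refine abs_le_of_sq_le_sq ?_ (by positivity)
    calc (∑ i, (A *ᵥ x) i * (B *ᵥ y) i) ^ 2 ≤ sq2 (A *ᵥ x) * sq2 (B *ᵥ y) := sq2_real_le _ _
      _ ≤ (α ^ 2 * sq2 x) * (β ^ 2 * sq2 y) :=
          mul_le_mul (hA x) (hB y) (sq2_nonneg _) (mul_nonneg (sq_nonneg _) (sq2_nonneg _))
      _ = (α * β * (√(sq2 x) * √(sq2 y))) ^ 2 := by
          rw [mul_pow, mul_pow (√(sq2 x)), Real.sq_sqrt (sq2_nonneg _),
            Real.sq_sqrt (sq2_nonneg _)]
          ring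
  have hu1 := hcs u v
  have hv1 := hcs v u
  set nu := √(sq2 u) with hnu
  set nv := √(sq2 v) with hnv
  have hnu2 : nu ^ 2 = sq2 u := Real.sq_sqrt (sq2_nonneg _)
  have hnv2 : nv ^ 2 = sq2 v := Real.sq_sqrt (sq2_nonneg _)
  have hprod : 2 * (nu * nv) ≤ 1 := by
    rw [← hnorm, ← hnu2, ← hnv2]
    nlinarith [sq_nonneg (nu - nv)]
  have hfin : l ^ 2 ≤ (α + β) ^ 2 := by
    rw [hsum, e3, e4]
    have i1 := (abs_le.1 hu1).1
    have i2 := (abs_le.1 hv1).2
    have i3 := hA u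
    have i4 := hA v
    have i5 := hB u
    have i6 := hB v
    have i7 : α * β * (nu * nv) * 4 ≤ α * β * 2 := by
      have : 0 ≤ α * β := mul_nonneg hα hβ
      nlinarith
    have i8 : α ^ 2 * sq2 u + α ^ 2 * sq2 v = α ^ 2 := by rw [← mul_add, hnorm, mul_one]
    have i9 : β ^ 2 * sq2 u + β ^ 2 * sq2 v = β ^ 2 := by rw [← mul_add, hnorm, mul_one]
    have i10 : nv * nu = nu * nv := mul_comm _ _
    rw [i10] at i2
    nlinarith
  exact abs_le_of_sq_le_sq hfin (by positivity)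

theorem isHermitian_cx {N : ℕ} {A B : Matrix (Fin N) (Fin N) ℝ} (hA : Aᵀ = A) (hB : Bᵀ = -B) :
    (cx A + Complex.I • cx B).IsHermitian := by
  unfold Matrix.IsHermitian
  ext i j
  have h1 : A j i = A i j := by
    have := congrFun (congrFun hA i) j
    simpa using this
  have h2 : B j i = - B i j := by
    have := congrFun (congrFun hB i) j
    simpa using this
  simp only [Matrix.conjTranspose_apply, Matrix.add_apply, Matrix.smul_apply, cx_apply,
    smul_eq_mul, star_add, star_mul', RCLike.star_def, Complex.conj_ofReal, Complex.conj_I, h1, h2]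
  push_cast
  ring

/-- Pointwise lower bound, general case. -/
theorem det_lower1 {n : ℕ} {A B : Matrix (Fin (2 * n)) (Fin (2 * n)) ℝ} (hA : Aᵀ = A)
    (hB : Bᵀ = -B) {α β : ℝ} (hα : 0 ≤ α) (hβ : 0 ≤ β)
    (hA2 : ∀ x, sq2 (A *ᵥ x) ≤ α ^ 2 * sq2 x) (hB2 : ∀ x, sq2 (B *ᵥ x) ≤ β ^ 2 * sq2 x) (ξ : ℝ) :
    (4 / 9) ^ n * ξ ^ (2 * n) - (4 ^ n + (4 / 9) ^ n) * (α + β) ^ (2 * n) ≤
      (((ξ : ℂ) • (1 : Matrix (Fin (2 * n)) (Fin (2 * n)) ℂ) + (cx A + Complex.I • cx B)).det).re := by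
  have hH := isHermitian_cx hA hB
  rw [det_shift hH ξ, Complex.ofReal_re]
  exact prod_lower1 ξ (α + β) (by positivity) _ fun i => eigenvalue_bound hH hα hβ hA2 hB2 i

/-- Pointwise lower bound, skew case. -/
theorem det_lower2 {n : ℕ} {B : Matrix (Fin (2 * n)) (Fin (2 * n)) ℝ}
    (hB : Bᵀ = -B) {β : ℝ} (hβ : 0 ≤ β)
    (hB2 : ∀ x, sq2 (B *ᵥ x) ≤ β ^ 2 * sq2 x) (ξ : ℝ) :
    (1 / 2) ^ n * ξ ^ (2 * n) - (1 + (1 / 2) ^ n) * β ^ (2 * n) ≤
      (((ξ : ℂ) • (1 : Matrix (Fin (2 * n)) (Fin (2 * n)) ℂ) +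
        (cx (0 : Matrix (Fin (2 * n)) (Fin (2 * n)) ℝ) + Complex.I • cx B)).det).re := by
  have hH := isHermitian_cx (A := (0 : Matrix (Fin (2 * n)) (Fin (2 * n)) ℝ)) (by simp) hB
  set H := cx (0 : Matrix (Fin (2 * n)) (Fin (2 * n)) ℝ) + Complex.I • cx B with hHdef
  have hneg : Hᵀ = -H := by
    ext i j
    have h2 : B j i = - B i j := by
      have := congrFun (congrFun hB i) j
      simpa using this
    simp [hHdef, cx_apply, h2]
  have hl : ∀ i, |hH.eigenvalues i| ≤ β := by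
    intro i
    have := eigenvalue_bound hH (le_refl (0 : ℝ)) hβ (fun x => by
      rw [Matrix.zero_mulVec]; simp [sq2]) hB2 i
    rw [zero_add] at this
    exact this
  rw [det_shift hH ξ, Complex.ofReal_re]
  refine prod_lower2 ξ β hβ _ hl ?_
  have e1 := det_shift hH ξ
  have e2 := det_shift hH (-ξ)
  have e3 : (((-ξ : ℝ) : ℂ) • (1 : Matrix (Fin (2 * n)) (Fin (2 * n)) ℂ) + H).det =
      ((ξ : ℂ) • (1 : Matrix (Fin (2 * n)) (Fin (2 * n)) ℂ) + H).det := by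
    have h4 : (((-ξ : ℝ) : ℂ) • (1 : Matrix (Fin (2 * n)) (Fin (2 * n)) ℂ) + H) =
        -((ξ : ℂ) • (1 : Matrix (Fin (2 * n)) (Fin (2 * n)) ℂ) + H)ᵀ := by
      rw [Matrix.transpose_add, hneg, Matrix.transpose_smul, Matrix.transpose_one]
      push_cast
      rw [neg_smul]
      abel
    rw [h4, Matrix.det_neg, Matrix.det_transpose, Fintype.card_fin, pow_mul]
    norm_num
  rw [e1, e2] at e3
  have e4 : (∏ i, (-ξ + hH.eigenvalues i)) = ∏ i, (ξ + hH.eigenvalues i) := by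
    exact_mod_cast e3
  rw [← e4]
  have h2 : ∀ i, -ξ + hH.eigenvalues i = (-1) * (ξ - hH.eigenvalues i) := by intro i; ring
  simp only [h2, Finset.prod_mul_distrib, Finset.prod_const, Finset.card_univ, Fintype.card_fin]
  rw [pow_mul]
  norm_num

end Pool.Agent.H69Gauss
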