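import Pool.Agent.Lib.H69.Gauss.Basic

/-!
# A symmetrised form of Wick's formula
-/

open MeasureTheory ProbabilityTheory Finset MvPolynomial

namespace Pool.Agent.H69Gauss

variable {ι : Type*} [Fintype ι] {𝕜 : Type*} [RCLike 𝕜] {P : Type*} [Fintype P]

/-- The form `∑ w, c w * ∏ j, y (w j)`. -/
noncomputable def FF (y : P → MvPolynomial ι 𝕜) (m : ℕ) (c : (Fin m → P) → 𝕜) :
    MvPolynomial ι 𝕜 :=
  ∑ w : Fin m → P, C (c w) * ∏ j, y (w j)

theorem FF_zero (y : P → MvPolynomial ι 𝕜) (c : (Fin 0 → P) → 𝕜) :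
    FF y 0 c = C (c fun i => Fin.elim0 i) := by
  unfold FF
  rw [Fintype.sum_unique]
  have h : (default : Fin 0 → P) = fun i => Fin.elim0 i := Subsingleton.elim _ _
  rw [h]
  simp

theorem FF_succ (y : P → MvPolynomial ι 𝕜) (m : ℕ) (c : (Fin (m + 1) → P) → 𝕜) :
    FF y (m + 1) c = ∑ q, y q * FF y m (fun w => c (Fin.cons q w)) := by
  unfold FF
  rw [← Equiv.sum_comp (Fin.consEquiv (fun _ : Fin (m + 1) => P)), Fintype.sum_prod_type]
  refine Finset.sum_congr rfl fun q _ => ?_
  rw [Finset.mul_sum]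
  refine Finset.sum_congr rfl fun w _ => ?_
  rw [Fin.prod_univ_succ]
  have h : (Fin.consEquiv (fun _ : Fin (m + 1) => P)) (q, w) = (Fin.cons q w : Fin (m + 1) → P) :=
    rfl
  rw [h]
  simp only [Fin.cons_zero, Fin.cons_succ]
  ring

/-- Invariance under permutations of the slots. -/
def Inv (m : ℕ) (c : (Fin m → P) → 𝕜) : Prop :=
  ∀ (ρ : Equiv.Perm (Fin m)) (w : Fin m → P), c (w ∘ ρ) = c w

omit [Fintype P] in
theorem Inv.cons {m : ℕ} {c : (Fin (m + 1) → P) → 𝕜} (h : Inv (m + 1) c) (q : P) :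
    Inv m (fun w => c (Fin.cons q w)) := by
  intro ρ w
  have := h (Equiv.Perm.decomposeFin.symm (0, ρ)) (Fin.cons q w)
  change c (Fin.cons q (w ∘ ρ)) = c (Fin.cons q w)
  rw [← this]
  congr 1
  funext j
  refine Fin.cases ?_ (fun j => ?_) j
  · simp
  · simp

omit [Fintype P] [RCLike 𝕜] in
theorem Inv.swap {m : ℕ} {c : (Fin (m + 2) → P) → 𝕜} (h : Inv (m + 2) c) (q r : P)
    (w : Fin m → P) : c (Fin.cons q (Fin.cons r w)) = c (Fin.cons r (Fin.cons q w)) := by
  have := h (Equiv.swap 0 1) (Fin.cons r (Fin.cons q w))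
  rw [← this]
  congr 1
  funext j
  refine Fin.cases ?_ (fun j => ?_) j
  · simp only [Fin.cons_zero, Function.comp_apply, Equiv.swap_apply_left]
    rw [← Fin.succ_zero_eq_one, Fin.cons_succ, Fin.cons_zero]
  · refine Fin.cases ?_ (fun j => ?_) j
    · simp only [Fin.cons_succ, Fin.cons_zero, Function.comp_apply]
      rw [Fin.succ_zero_eq_one, Equiv.swap_apply_right, Fin.cons_zero]
    · simp only [Fin.cons_succ, Function.comp_apply]
      rw [Equiv.swap_apply_of_ne_of_ne (Fin.succ_ne_zero _)]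
      · rfl
      · rw [← Fin.succ_zero_eq_one]
        intro h
        exact Fin.succ_ne_zero _ (Fin.succ_injective _ h)

theorem pderiv_FF (a : ι) (y : P → MvPolynomial ι 𝕜) (d : P → 𝕜)
    (hy : ∀ p, pderiv a (y p) = C (d p)) : ∀ (m : ℕ) (c : (Fin (m + 1) → P) → 𝕜),
    Inv (m + 1) c → pderiv a (FF y (m + 1) c) =
      C ((m : 𝕜) + 1) * ∑ q, C (d q) * FF y m (fun w => c (Fin.cons q w)) := by
  intro m
  induction m with
  | zero =>
    intro c _
    rw [FF_succ, map_sum]
    simp only [Nat.cast_zero, zero_add, C_1, one_mul]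
    refine Finset.sum_congr rfl fun q _ => ?_
    rw [FF_zero, pderiv_mul, hy, pderiv_C, mul_zero, add_zero]
  | succ m ih =>
    intro c hc
    rw [FF_succ, map_sum]
    have h1 : ∀ q, pderiv a (y q * FF y (m + 1) (fun w => c (Fin.cons q w))) =
        C (d q) * FF y (m + 1) (fun w => c (Fin.cons q w)) +
        ∑ r, C ((m : 𝕜) + 1) * (C (d r) * (y q *
          FF y m (fun w => c (Fin.cons r (Fin.cons q w))))) := by
      intro q
      rw [pderiv_mul, hy, ih _ (hc.cons q)]
      congr 1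
      rw [Finset.mul_sum, Finset.mul_sum]
      refine Finset.sum_congr rfl fun r _ => ?_
      have : (fun w => c (Fin.cons q (Fin.cons r w))) =
          (fun w : Fin m → P => c (Fin.cons r (Fin.cons q w))) := by
        funext w
        exact hc.swap q r w
      rw [this]
      ring
    rw [Finset.sum_congr rfl (fun q _ => h1 q), Finset.sum_add_distrib]
    rw [Finset.sum_comm (s := (Finset.univ : Finset P))]
    have h2 : ∀ r, (∑ q, C ((m : 𝕜) + 1) * (C (d r) * (y q *
          FF y m (fun w => c (Fin.cons r (Fin.cons q w)))))) =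
        C ((m : 𝕜) + 1) * (C (d r) * FF y (m + 1) (fun w => c (Fin.cons r w))) := by
      intro r
      rw [FF_succ, Finset.mul_sum, Finset.mul_sum]
    rw [Finset.sum_congr rfl (fun r _ => h2 r), ← Finset.mul_sum]
    have h3 : (C (((m + 1 : ℕ) : 𝕜) + 1) : MvPolynomial ι 𝕜) = 1 + C ((m : 𝕜) + 1) := by
      rw [← C_1, ← C_add]
      congr 1
      push_cast
      ring
    rw [h3, add_mul, one_mul]

/-- The linear form with coefficients `c`. -/
noncomputable def lin (c : ι → 𝕜) : MvPolynomial ι 𝕜 := ∑ a, C (c a) * X a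

theorem pderiv_lin [DecidableEq ι] (c : ι → 𝕜) (a : ι) : pderiv a (lin c) = C (c a) := by
  unfold lin
  rw [map_sum, Finset.sum_eq_single a]
  · rw [pderiv_C_mul, pderiv_X_self, mul_one]
  · intro b _ hb
    rw [pderiv_C_mul, pderiv_X_of_ne hb, mul_zero]
  · simp

theorem evr_lin (c : ι → 𝕜) (x : ι → ℝ) : evr x (lin c) = ∑ a, c a * (x a : 𝕜) := by
  unfold lin evr
  simp

theorem LG_FF_step [DecidableEq ι] (M : ι → P → 𝕜) (m : ℕ) (c : (Fin (m + 2) → P) → 𝕜)
    (hc : Inv (m + 2) c) :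
    LG (FF (fun p => lin fun a => M a p) (m + 2) c) = ((m : 𝕜) + 1) *
      ∑ p, ∑ q, (∑ a, M a p * M a q) *
        LG (FF (fun p => lin fun a => M a p) m (fun w => c (Fin.cons p (Fin.cons q w)))) := by
  set y : P → MvPolynomial ι 𝕜 := fun p => lin fun a => M a p with hy
  rw [FF_succ, LG_sum, Finset.mul_sum]
  refine Finset.sum_congr rfl fun p _ => ?_
  have h1 : y p * FF y (m + 1) (fun w => c (Fin.cons p w)) =
      ∑ a, C (M a p) * (X a * FF y (m + 1) (fun w => c (Fin.cons p w))) := by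
    rw [hy]
    simp only [lin]
    rw [Finset.sum_mul]
    refine Finset.sum_congr rfl fun a _ => ?_
    ring
  rw [h1, LG_sum]
  have h2 : ∀ a, LG (C (M a p) * (X a * FF y (m + 1) (fun w => c (Fin.cons p w)))) =
      ∑ q, ((m : 𝕜) + 1) * ((M a p * M a q) *
        LG (FF y m (fun w => c (Fin.cons p (Fin.cons q w))))) := by
    intro a
    rw [LG_C_mul, LG_X_mul, pderiv_FF a y (fun q => M a q) (fun q => pderiv_lin _ a) m _
      (hc.cons p), LG_C_mul, LG_sum, Finset.mul_sum, Finset.mul_sum]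
    refine Finset.sum_congr rfl fun q _ => ?_
    rw [LG_C_mul]
    ring
  rw [Finset.sum_congr rfl (fun a _ => h2 a), Finset.sum_comm, Finset.mul_sum]
  refine Finset.sum_congr rfl fun q _ => ?_
  rw [← Finset.mul_sum, Finset.sum_mul]

/-- `(2 n - 1)!!` -/
noncomputable def dff : ℕ → ℝ
  | 0 => 1
  | n + 1 => (2 * n + 1) * dff n

theorem dff_pos : ∀ n, 0 < dff n
  | 0 => by unfold dff; norm_num
  | n + 1 => by
    unfold dff
    have := dff_pos n
    positivity

/-- Iterated contraction. -/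
noncomputable def WW (K : P → P → 𝕜) : (n : ℕ) → ((Fin (2 * n) → P) → 𝕜) → 𝕜
  | 0, c => c fun i => Fin.elim0 i
  | n + 1, c => ∑ p, ∑ q, K p q * WW K n (fun w : Fin (2 * n) → P =>
      c (Fin.cons p (Fin.cons q w) : Fin (2 * n + 1 + 1) → P))

theorem LG_FF [DecidableEq ι] (M : ι → P → 𝕜) : ∀ (n : ℕ) (c : (Fin (2 * n) → P) → 𝕜),
    Inv (2 * n) c → LG (FF (fun p => lin fun a => M a p) (2 * n) c) =
      (dff n : 𝕜) * WW (fun p q => ∑ a, M a p * M a q) n c := by
  intro n
  induction n with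
  | zero =>
    intro c _
    have h := FF_zero (fun p => lin fun a => M a p) c
    change LG (FF (fun p => lin fun a => M a p) 0 c) = _
    rw [h, LG_C]
    simp [WW, dff]
  | succ n ih =>
    intro c hc
    have h := LG_FF_step M (2 * n) c hc
    change LG (FF (fun p => lin fun a => M a p) (2 * n + 2) c) = _
    rw [h]
    have h1 : ∀ p q, LG (FF (fun p => lin fun a => M a p) (2 * n)
        (fun w => c (Fin.cons p (Fin.cons q w) : Fin (2 * n + 1 + 1) → P))) =
        (dff n : 𝕜) * WW (fun p q => ∑ a, M a p * M a q) n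
          (fun w => c (Fin.cons p (Fin.cons q w) : Fin (2 * n + 1 + 1) → P)) := by
      intro p q
      exact ih _ ((Inv.cons (m := 2 * n + 1) hc p).cons q)
    have h2 : (dff (n + 1) : 𝕜) = (((2 * n : ℕ) : 𝕜) + 1) * (dff n : 𝕜) := by
      simp only [dff]
      push_cast
      ring
    rw [h2]
    simp only [WW]
    rw [mul_assoc]
    congr 1
    rw [Finset.mul_sum]
    refine Finset.sum_congr rfl fun p _ => ?_
    rw [Finset.mul_sum]
    refine Finset.sum_congr rfl fun q _ => ?_
    rw [h1]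
    ring

end Pool.Agent.H69Gauss
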